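import Pool.Agent.Triple97.Defs

/-!
The two model families: identities, simplicity, invariants.
-/

set_option autoImplicit false

namespace Pool.Agent.Triple97

open Module

variable {W : Type*} [AddCommGroup W] [Module ℂ W] {B : W →ₗ[ℂ] W →ₗ[ℂ] W →ₗ[ℂ] W}

theorem isMat_ids {n : ℕ} (h : IsMat B n) : I1 B ∧ I2 B ∧ I3 B := by
  obtain ⟨e, he⟩ := h
  refine ⟨fun X Y V U => ?_, fun X Y Z V => ?_, fun X Y Z V => ?_⟩ <;>
  · apply e.injective
    simp only [he, Matrix.mul_assoc]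

theorem isRect_ids {p q : ℕ} (h : IsRect B p q) : I1 B ∧ I2 B ∧ I3 B := by
  obtain ⟨e, he⟩ := h
  refine ⟨fun X Y V U => ?_, fun X Y Z V => ?_, fun X Y Z V => ?_⟩ <;>
  · apply e.injective
    simp only [he, Matrix.mul_assoc]

theorem isMat_simple {n : ℕ} (hn : 1 ≤ n) (h : IsMat B n) : IsSimpleTriple B := by
  obtain ⟨e, he⟩ := h
  constructor
  · intro h0
    have h1 := he (e.symm 1) (e.symm 1) (e.symm 1)
    rw [h0] at h1
    simp only [LinearMap.zero_apply, map_zero, LinearEquiv.apply_symm_apply, mul_one] at h1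
    have h2 := congrFun (congrFun h1 ⟨0, hn⟩) ⟨0, hn⟩
    simp at h2
  · intro I hI
    by_cases hb : I = ⊥
    · exact Or.inl hb
    right
    obtain ⟨t, htI, ht0⟩ := (Submodule.ne_bot_iff I).1 hb
    have hT : e t ≠ 0 := fun h0 => ht0 (by rw [← e.symm_apply_apply t, h0, map_zero])
    obtain ⟨i, j, hij⟩ : ∃ i j, e t i j ≠ 0 := by
      by_contra hcon
      push Not at hcon
      exact hT (Matrix.ext hcon)
    have hE : ∀ k l, e.symm (Matrix.single k l 1) ∈ I := by
      intro k l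
      have h1 := (hI t htI (e.symm (Matrix.single k i 1)) (e.symm (Matrix.single j l 1))).2.1
      have h2 : e.symm (Matrix.single k l (1 : ℂ)) = (e t i j)⁻¹ •
          B (e.symm (Matrix.single k i 1)) t (e.symm (Matrix.single j l 1)) := by
        apply e.injective
        rw [map_smul, he]
        simp only [LinearEquiv.apply_symm_apply]
        rw [Matrix.single_mul_mul_single, one_mul, mul_one, Matrix.smul_single, smul_eq_mul,
          inv_mul_cancel₀ hij]
      rw [h2]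
      exact I.smul_mem _ h1
    rw [eq_top_iff]
    intro w _
    have h3 : w = ∑ k, ∑ l, e w k l • e.symm (Matrix.single k l 1) := by
      apply e.injective
      rw [map_sum]
      conv_lhs => rw [Matrix.matrix_eq_sum_single (e w)]
      apply Finset.sum_congr rfl
      intro k _
      rw [map_sum]
      apply Finset.sum_congr rfl
      intro l _
      rw [map_smul, LinearEquiv.apply_symm_apply, Matrix.smul_single, smul_eq_mul, mul_one]
    rw [h3]
    exact I.sum_mem fun k _ => I.sum_mem fun l _ => I.smul_mem _ (hE k l)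

theorem isMat_finrank {n : ℕ} (h : IsMat B n) : finrank ℂ W = n * n := by
  obtain ⟨e, -⟩ := h
  rw [e.finrank_eq, Module.finrank_matrix]
  simp

theorem isRect_finrank {p q : ℕ} (h : IsRect B p q) : finrank ℂ W = 2 * (p * q) := by
  obtain ⟨e, -⟩ := h
  rw [e.finrank_eq, Module.finrank_prod, Module.finrank_matrix, Module.finrank_matrix]
  simp
  ring

lemma rect_half {p q : ℕ} (e : W ≃ₗ[ℂ] (Matrix (Fin p) (Fin q) ℂ × Matrix (Fin q) (Fin p) ℂ))
    (he : ∀ x y z : W,
      e (B x y z) = ((e x).1 * (e y).2 * (e z).1, (e x).2 * (e y).1 * (e z).2))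
    {I : Submodule ℂ W} (hI : IsTIdeal B I) {t : W} (ht : t ∈ I) (h : (e t).1 ≠ 0)
    (A : Matrix (Fin q) (Fin p) ℂ) : e.symm (0, A) ∈ I := by
  obtain ⟨i, j, hij⟩ : ∃ i j, (e t).1 i j ≠ 0 := by
    by_contra hcon
    push Not at hcon
    exact h (Matrix.ext hcon)
  have hE : ∀ k l, e.symm (0, Matrix.single k l 1) ∈ I := by
    intro k l
    have h1 := (hI t ht (e.symm (0, Matrix.single k i 1)) (e.symm (0, Matrix.single j l 1))).2.1
    have h2 : e.symm (0, Matrix.single k l (1 : ℂ)) = ((e t).1 i j)⁻¹ •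
        B (e.symm (0, Matrix.single k i 1)) t (e.symm (0, Matrix.single j l 1)) := by
      apply e.injective
      rw [map_smul, he]
      simp only [LinearEquiv.apply_symm_apply]
      rw [Matrix.single_mul_mul_single, one_mul, mul_one, Matrix.zero_mul, Matrix.zero_mul,
        Prod.smul_mk, smul_zero, Matrix.smul_single, smul_eq_mul, inv_mul_cancel₀ hij]
    rw [h2]
    exact I.smul_mem _ h1
  have h3 : e.symm (0, A) = ∑ k, ∑ l, A k l • e.symm (0, Matrix.single k l 1) := by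
    apply e.injective
    rw [map_sum, LinearEquiv.apply_symm_apply]
    conv_lhs => rw [Matrix.matrix_eq_sum_single A]
    have h4 : ∀ k : Fin q, e (∑ l, A k l • e.symm (0, Matrix.single k l 1)) =
        (0, ∑ l, Matrix.single k l (A k l)) := by
      intro k
      rw [map_sum]
      have h5 : ∀ l : Fin p, e (A k l • e.symm (0, Matrix.single k l 1)) =
          (0, Matrix.single k l (A k l)) := by
        intro l
        rw [map_smul, LinearEquiv.apply_symm_apply, Prod.smul_mk, smul_zero,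
          Matrix.smul_single, smul_eq_mul, mul_one]
      simp only [h5]
      rw [Prod.ext_iff, Prod.fst_sum, Prod.snd_sum]
      simp
    simp only [h4]
    rw [Prod.ext_iff, Prod.fst_sum, Prod.snd_sum]
    simp
  rw [h3]
  exact I.sum_mem fun k _ => I.sum_mem fun l _ => I.smul_mem _ (hE k l)

theorem isRect_simple {p q : ℕ} (hp : 1 ≤ p) (hq : 1 ≤ q) (h : IsRect B p q) :
    IsSimpleTriple B := by
  obtain ⟨e, he⟩ := h
  let e' : W ≃ₗ[ℂ] (Matrix (Fin q) (Fin p) ℂ × Matrix (Fin p) (Fin q) ℂ) :=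
    e.trans (LinearEquiv.prodComm ℂ _ _)
  have he' : ∀ x y z : W,
      e' (B x y z) = ((e' x).1 * (e' y).2 * (e' z).1, (e' x).2 * (e' y).1 * (e' z).2) := by
    intro x y z
    simp only [e', LinearEquiv.trans_apply, LinearEquiv.prodComm_apply, he, Prod.swap]
  have hes : ∀ A, e'.symm (0, A) = e.symm (A, 0) := fun A => rfl
  have hone : (Matrix.single ⟨0, hp⟩ ⟨0, hq⟩ (1 : ℂ) : Matrix (Fin p) (Fin q) ℂ) ≠ 0 := by
    intro h0
    have h2 := congrFun (congrFun h0 ⟨0, hp⟩) ⟨0, hq⟩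
    simp at h2
  have hone' : (Matrix.single ⟨0, hq⟩ ⟨0, hp⟩ (1 : ℂ) : Matrix (Fin q) (Fin p) ℂ) ≠ 0 := by
    intro h0
    have h2 := congrFun (congrFun h0 ⟨0, hq⟩) ⟨0, hp⟩
    simp at h2
  constructor
  · intro h0
    have h1 := he (e.symm (Matrix.single ⟨0, hp⟩ ⟨0, hq⟩ 1, 0))
      (e.symm (0, Matrix.single ⟨0, hq⟩ ⟨0, hp⟩ 1)) (e.symm (Matrix.single ⟨0, hp⟩ ⟨0, hq⟩ 1, 0))
    rw [h0] at h1
    simp only [LinearMap.zero_apply, map_zero, LinearEquiv.apply_symm_apply] at h1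
    have h3 := congrArg Prod.fst h1
    rw [Matrix.single_mul_single_same, Matrix.single_mul_single_same] at h3
    simp only [mul_one] at h3
    exact hone h3.symm
  · intro I hI
    by_cases hb : I = ⊥
    · exact Or.inl hb
    right
    obtain ⟨t, htI, ht0⟩ := (Submodule.ne_bot_iff I).1 hb
    have hT : e t ≠ 0 := fun h0 => ht0 (by rw [← e.symm_apply_apply t, h0, map_zero])
    have hall : (∀ A, e.symm (0, A) ∈ I) ∧ (∀ A, e.symm (A, 0) ∈ I) := by
      by_cases h1 : (e t).1 = 0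
      · have h2 : (e' t).1 ≠ 0 := fun h2 => hT (Prod.ext h1 h2)
        have h3 : ∀ A, e.symm (A, 0) ∈ I := fun A => rect_half e' he' hI htI h2 A
        refine ⟨fun A => rect_half e he hI (h3 (Matrix.single ⟨0, hp⟩ ⟨0, hq⟩ 1)) ?_ A, h3⟩
        rw [LinearEquiv.apply_symm_apply]
        exact hone
      · have h3 : ∀ A, e.symm (0, A) ∈ I := fun A => rect_half e he hI htI h1 A
        refine ⟨h3, fun A =>
          rect_half e' he' hI (h3 (Matrix.single ⟨0, hq⟩ ⟨0, hp⟩ 1)) ?_ A⟩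
        change (e (e.symm _)).2 ≠ 0
        rw [LinearEquiv.apply_symm_apply]
        exact hone'
    rw [eq_top_iff]
    intro w _
    have h3 : w = e.symm ((e w).1, 0) + e.symm (0, (e w).2) := by
      rw [← map_add]
      simp
    rw [h3]
    exact I.add_mem (hall.2 _) (hall.1 _)

/-- put a vector in the row `j` of a matrix -/
def rowE {m n : ℕ} (j : Fin m) : (Fin n → ℂ) →ₗ[ℂ] Matrix (Fin m) (Fin n) ℂ where
  toFun f := Matrix.of fun a b => if a = j then f b else 0
  map_add' f g := by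
    ext a b
    by_cases h : a = j <;> simp [h]
  map_smul' c f := by
    ext a b
    by_cases h : a = j <;> simp [h]

lemma mul_rowE {l m n : ℕ} (S : Matrix (Fin l) (Fin m) ℂ) (j : Fin m) (f : Fin n → ℂ) (i : Fin l)
    (b : Fin n) : (S * rowE j f) i b = S i j * f b := by
  simp [Matrix.mul_apply, rowE]

lemma single_mul_rowE {m n k : ℕ} (j : Fin m) (j' : Fin k) (A : Matrix (Fin k) (Fin n) ℂ) :
    Matrix.single j j' (1 : ℂ) * A = rowE j (A j') := by
  ext a b
  by_cases h : a = j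
  · subst h; simp [rowE]
  · rw [Matrix.single_mul_apply_of_ne (h := h)]; simp [rowE, h]

lemma finrank_range_ge {V V' : Type*} [AddCommGroup V] [Module ℂ V] [FiniteDimensional ℂ V]
    [AddCommGroup V'] [Module ℂ V'] {n : ℕ} (R : V →ₗ[ℂ] V') (K : (Fin n → ℂ) →ₗ[ℂ] V)
    (h : Function.Injective (R ∘ₗ K)) : n ≤ finrank ℂ (LinearMap.range R) := by
  have h1 : finrank ℂ (LinearMap.range (R ∘ₗ K)) = n := by
    rw [LinearMap.finrank_range_of_inj h]; simp
  rw [← h1]
  exact Submodule.finrank_mono (LinearMap.range_comp_le_range K R)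

lemma finrank_range_le' {V V' : Type*} [AddCommGroup V] [Module ℂ V]
    [AddCommGroup V'] [Module ℂ V'] {n : ℕ} (R : V →ₗ[ℂ] V') (K : (Fin n → ℂ) →ₗ[ℂ] V')
    (h : ∀ v, ∃ f, R v = K f) : finrank ℂ (LinearMap.range R) ≤ n := by
  have h1 : LinearMap.range R ≤ LinearMap.range K := by
    rintro _ ⟨v, rfl⟩
    obtain ⟨f, hf⟩ := h v
    exact ⟨f, hf.symm⟩
  have h2 : finrank ℂ (LinearMap.range K) ≤ n := by
    have := LinearMap.finrank_range_le K
    simpa using this
  exact (Submodule.finrank_mono h1).trans h2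

lemma isMat_low [FiniteDimensional ℂ W] {n : ℕ} (h : IsMat B n) (x y : W) (hxy : B x y ≠ 0) :
    n ≤ finrank ℂ (LinearMap.range (B x y)) := by
  obtain ⟨e, he⟩ := h
  have hS : e x * e y ≠ 0 := by
    intro h0
    apply hxy
    ext w
    apply e.injective
    rw [he, h0]
    simp
  obtain ⟨i, j, hij⟩ : ∃ i j, (e x * e y) i j ≠ 0 := by
    by_contra hcon
    push Not at hcon
    exact hS (Matrix.ext hcon)
  apply finrank_range_ge (B x y) (e.symm.toLinearMap ∘ₗ rowE j)
  rw [← LinearMap.ker_eq_bot, LinearMap.ker_eq_bot']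
  intro f hf
  have h1 : e (B x y (e.symm (rowE j f))) = 0 := by
    have : B x y (e.symm (rowE j f)) = 0 := hf
    rw [this, map_zero]
  rw [he, LinearEquiv.apply_symm_apply] at h1
  ext b
  have h2 := congrFun (congrFun h1 i) b
  rw [mul_rowE] at h2
  exact (mul_eq_zero.1 h2).resolve_left hij

lemma isMat_ex {n : ℕ} (hn : 1 ≤ n) (h : IsMat B n) :
    ∃ x y : W, B x y ≠ 0 ∧ finrank ℂ (LinearMap.range (B x y)) ≤ n := by
  obtain ⟨e, he⟩ := h
  refine ⟨e.symm (Matrix.single ⟨0, hn⟩ ⟨0, hn⟩ 1), e.symm 1, ?_, ?_⟩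
  · intro h0
    have h1 := he (e.symm (Matrix.single ⟨0, hn⟩ ⟨0, hn⟩ 1)) (e.symm 1) (e.symm 1)
    rw [h0] at h1
    simp only [LinearMap.zero_apply, map_zero, LinearEquiv.apply_symm_apply, mul_one] at h1
    have h2 := congrFun (congrFun h1 ⟨0, hn⟩) ⟨0, hn⟩
    simp at h2
  · apply finrank_range_le' _ (e.symm.toLinearMap ∘ₗ rowE ⟨0, hn⟩)
    intro v
    refine ⟨e v ⟨0, hn⟩, ?_⟩
    apply e.injective
    rw [he, LinearEquiv.apply_symm_apply, LinearEquiv.apply_symm_apply, mul_one,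
      single_mul_rowE]
    simp

lemma isRect_low [FiniteDimensional ℂ W] {p q : ℕ} (hpq : p ≤ q) (h : IsRect B p q) (x y : W)
    (hxy : B x y ≠ 0) : p ≤ finrank ℂ (LinearMap.range (B x y)) := by
  obtain ⟨e, he⟩ := h
  by_cases hS : (e x).1 * (e y).2 = 0
  · have hS' : (e x).2 * (e y).1 ≠ 0 := by
      intro h0
      apply hxy
      ext w
      apply e.injective
      rw [he, h0, hS]
      simp
    obtain ⟨i, j, hij⟩ : ∃ i j, ((e x).2 * (e y).1) i j ≠ 0 := by
      by_contra hcon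
      push Not at hcon
      exact hS' (Matrix.ext hcon)
    apply finrank_range_ge (B x y) (e.symm.toLinearMap ∘ₗ LinearMap.inr ℂ _ _ ∘ₗ rowE j)
    rw [← LinearMap.ker_eq_bot, LinearMap.ker_eq_bot']
    intro f hf
    have h1 : e (B x y (e.symm (0, rowE j f))) = 0 := by
      have : B x y (e.symm (0, rowE j f)) = 0 := hf
      rw [this, map_zero]
    rw [he, LinearEquiv.apply_symm_apply] at h1
    ext b
    have h2 : ((e x).2 * (e y).1 * rowE j f) i b = 0 :=
      congrFun (congrFun (congrArg Prod.snd h1) i) b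
    rw [mul_rowE] at h2
    exact (mul_eq_zero.1 h2).resolve_left hij
  · obtain ⟨i, j, hij⟩ : ∃ i j, ((e x).1 * (e y).2) i j ≠ 0 := by
      by_contra hcon
      push Not at hcon
      exact hS (Matrix.ext hcon)
    refine hpq.trans ?_
    apply finrank_range_ge (B x y) (e.symm.toLinearMap ∘ₗ LinearMap.inl ℂ _ _ ∘ₗ rowE j)
    rw [← LinearMap.ker_eq_bot, LinearMap.ker_eq_bot']
    intro f hf
    have h1 : e (B x y (e.symm (rowE j f, 0))) = 0 := by
      have : B x y (e.symm (rowE j f, 0)) = 0 := hf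
      rw [this, map_zero]
    rw [he, LinearEquiv.apply_symm_apply] at h1
    ext b
    have h2 : ((e x).1 * (e y).2 * rowE j f) i b = 0 :=
      congrFun (congrFun (congrArg Prod.fst h1) i) b
    rw [mul_rowE] at h2
    exact (mul_eq_zero.1 h2).resolve_left hij

lemma isRect_ex {p q : ℕ} (hp : 1 ≤ p) (hq : 1 ≤ q) (h : IsRect B p q) :
    ∃ x y : W, B x y ≠ 0 ∧ finrank ℂ (LinearMap.range (B x y)) ≤ p := by
  obtain ⟨e, he⟩ := h
  have hone : (Matrix.single ⟨0, hq⟩ ⟨0, hq⟩ (1 : ℂ) : Matrix (Fin q) (Fin q) ℂ) ≠ 0 := by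
    intro h0
    have h2 := congrFun (congrFun h0 ⟨0, hq⟩) ⟨0, hq⟩
    simp at h2
  refine ⟨e.symm (0, Matrix.single ⟨0, hq⟩ ⟨0, hp⟩ 1), e.symm (Matrix.single ⟨0, hp⟩ ⟨0, hq⟩ 1, 0),
    ?_, ?_⟩
  · intro h0
    have h1 := he (e.symm (0, Matrix.single ⟨0, hq⟩ ⟨0, hp⟩ 1))
      (e.symm (Matrix.single ⟨0, hp⟩ ⟨0, hq⟩ 1, 0)) (e.symm (0, Matrix.single ⟨0, hq⟩ ⟨0, hp⟩ 1))
    rw [h0] at h1
    simp only [LinearMap.zero_apply, map_zero, LinearEquiv.apply_symm_apply] at h1
    have h3 := congrArg Prod.snd h1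
    rw [Matrix.single_mul_single_same, Matrix.single_mul_single_same] at h3
    simp only [mul_one] at h3
    have h2 := congrFun (congrFun h3 ⟨0, hq⟩) ⟨0, hp⟩
    simp at h2
  · apply finrank_range_le' _ (e.symm.toLinearMap ∘ₗ LinearMap.inr ℂ _ _ ∘ₗ rowE ⟨0, hq⟩)
    intro v
    refine ⟨(e v).2 ⟨0, hq⟩, ?_⟩
    apply e.injective
    rw [he, LinearEquiv.apply_symm_apply, LinearEquiv.apply_symm_apply]
    simp only [Matrix.mul_zero, Matrix.zero_mul, Matrix.single_mul_single_same, mul_one,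
      single_mul_rowE, LinearMap.comp_apply, LinearEquiv.coe_coe, LinearEquiv.apply_symm_apply,
      LinearMap.inr_apply]

/-- The parameter of a matrix system is determined. -/
theorem isMat_unique {n m : ℕ} (h : IsMat B n) (h' : IsMat B m) : n = m := by
  have := (isMat_finrank h).symm.trans (isMat_finrank h')
  exact Nat.mul_self_inj.1 this

/-- No matrix system is a pair system. -/
theorem isMat_isRect {n p q : ℕ} (hn : 1 ≤ n) (h : IsMat B n) (hp : 1 ≤ p) (hpq : p ≤ q)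
    (h' : IsRect B p q) [FiniteDimensional ℂ W] : False := by
  obtain ⟨x, y, hxy, hle⟩ := isMat_ex hn h
  obtain ⟨x', y', hxy', hle'⟩ := isRect_ex hp (hp.trans hpq) h'
  have h1 := (isMat_low h x' y' hxy').trans hle'
  have h2 := (isRect_low hpq h' x y hxy).trans hle
  have h3 : n = p := le_antisymm h1 h2
  have h4 := (isMat_finrank h).symm.trans (isRect_finrank h')
  subst h3
  nlinarith

/-- The parameters of a pair system are determined. -/
theorem isRect_unique {p q p' q' : ℕ} (hp : 1 ≤ p) (hpq : p ≤ q) (h : IsRect B p q)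
    (hp' : 1 ≤ p') (hpq' : p' ≤ q') (h' : IsRect B p' q') [FiniteDimensional ℂ W] :
    p = p' ∧ q = q' := by
  obtain ⟨x, y, hxy, hle⟩ := isRect_ex hp (hp.trans hpq) h
  obtain ⟨x', y', hxy', hle'⟩ := isRect_ex hp' (hp'.trans hpq') h'
  have h1 := (isRect_low hpq h x' y' hxy').trans hle'
  have h2 := (isRect_low hpq' h' x y hxy).trans hle
  have h3 : p = p' := le_antisymm h1 h2
  have h4 := (isRect_finrank h).symm.trans (isRect_finrank h')
  subst h3
  refine ⟨rfl, ?_⟩
  exact Nat.eq_of_mul_eq_mul_left hp (Nat.eq_of_mul_eq_mul_left two_pos h4)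

/-- The matrix systems exist. -/
theorem isMat_exists (n : ℕ) : ∃ B : Matrix (Fin n) (Fin n) ℂ →ₗ[ℂ]
    Matrix (Fin n) (Fin n) ℂ →ₗ[ℂ] Matrix (Fin n) (Fin n) ℂ →ₗ[ℂ] Matrix (Fin n) (Fin n) ℂ,
    IsMat B n := by
  refine ⟨LinearMap.mk₂ ℂ (fun x y => LinearMap.mulLeft ℂ (x * y)) ?_ ?_ ?_ ?_,
    LinearEquiv.refl ℂ _, fun x y z => rfl⟩
  · intro x x' y; ext z : 1; simp [add_mul, mul_assoc]
  · intro c x y; ext z : 1; simp [mul_assoc]
  · intro x y y'; ext z : 1; simp [mul_add, add_mul, mul_assoc]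
  · intro c x y; ext z : 1; simp [mul_assoc]

/-- auxiliary operator for the pair systems -/
def rectOp {p q : ℕ} (x y : Matrix (Fin p) (Fin q) ℂ × Matrix (Fin q) (Fin p) ℂ) :
    (Matrix (Fin p) (Fin q) ℂ × Matrix (Fin q) (Fin p) ℂ) →ₗ[ℂ]
    (Matrix (Fin p) (Fin q) ℂ × Matrix (Fin q) (Fin p) ℂ) where
  toFun z := (x.1 * y.2 * z.1, x.2 * y.1 * z.2)
  map_add' z z' := by simp [Matrix.mul_add]
  map_smul' c z := by simp

/-- The pair systems exist. -/
theorem isRect_exists (p q : ℕ) :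
    ∃ B : (Matrix (Fin p) (Fin q) ℂ × Matrix (Fin q) (Fin p) ℂ) →ₗ[ℂ]
      (Matrix (Fin p) (Fin q) ℂ × Matrix (Fin q) (Fin p) ℂ) →ₗ[ℂ]
      (Matrix (Fin p) (Fin q) ℂ × Matrix (Fin q) (Fin p) ℂ) →ₗ[ℂ]
      (Matrix (Fin p) (Fin q) ℂ × Matrix (Fin q) (Fin p) ℂ), IsRect B p q := by
  refine ⟨LinearMap.mk₂ ℂ rectOp ?_ ?_ ?_ ?_, LinearEquiv.refl ℂ _, fun x y z => rfl⟩
  · intro x x' y
    apply LinearMap.ext; intro z
    simp [rectOp, Matrix.add_mul]
  · intro c x y
    apply LinearMap.ext; intro z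
    simp [rectOp]
  · intro x y y'
    apply LinearMap.ext; intro z
    simp [rectOp, Matrix.add_mul, Matrix.mul_add]
  · intro c x y
    apply LinearMap.ext; intro z
    simp [rectOp]

end Pool.Agent.Triple97
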