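import Pool.Agent.Triple97.Defs

/-!
Polarised identities, the Jordan triple product, structural identities, and the trace form.
-/

set_option autoImplicit false

namespace Pool.Agent.Triple97

variable {W : Type*} [AddCommGroup W] [Module ℂ W] {B : W →ₗ[ℂ] W →ₗ[ℂ] W →ₗ[ℂ] W}

theorem fskew (h : I1 B) (X Y Z U V : W) :
    B X Y (B Z U V) + B Z Y (B X U V) = B X (B Y Z U) V + B Z (B Y X U) V := by
  have h1 := h (X + Z) Y U V
  have h2 := h X Y U V
  have h3 := h Z Y U V
  simp only [map_add, LinearMap.add_apply] at h1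
  linear_combination (norm := module) h1 - h2 - h3

theorem gskew (h : I2 B) (X Y Z U V : W) :
    B (B X Y Z) U V + B (B X Y V) U Z = B X (B Y Z U) V + B X (B Y V U) Z := by
  have h1 := h X Y (Z + V) U
  have h2 := h X Y Z U
  have h3 := h X Y V U
  simp only [map_add, LinearMap.add_apply] at h1
  linear_combination (norm := module) h2 + h3 - h1

theorem hskew (h : I3 B) (X Y Z U V : W) :
    B X Y (B Z U V) + B X U (B Z Y V) = B (B X Y Z) U V + B (B X U Z) Y V := by
  have h1 := h X (Y + U) Z V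
  have h2 := h X Y Z V
  have h3 := h X U Z V
  simp only [map_add, LinearMap.add_apply] at h1
  linear_combination (norm := module) h1 - h2 - h3

/-- first structural identity -/
theorem struct1 (h1 : I1 B) (h2 : I2 B) (h3 : I3 B) (x y u v w : W) :
    B x y (B u v w + B w v u) = (B (B x y u) v w + B w v (B x y u)) +
      (B u v (B x y w) + B (B x y w) v u) - (B u (B v x y) w + B w (B v x y) u) := by
  have a1 := hskew h3 x y u v w
  have a2 := hskew h3 x y w v u
  have b1 := fskew h1 u v x y w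
  have b2 := fskew h1 w v x y u
  have c1 := gskew h2 x v u y w
  simp only [map_add]
  linear_combination (norm := module) a1 + a2 - b1 - b2 + c1

/-- second structural identity -/
theorem struct2 (h1 : I1 B) (h2 : I2 B) (h3 : I3 B) (x y u v w : W) :
    B (B u v w + B w v u) x y = (B (B u x y) v w + B w v (B u x y)) +
      (B u v (B w x y) + B (B w x y) v u) - (B u (B x y v) w + B w (B x y v) u) := by
  have a1 := hskew h3 u v w x y
  have a2 := hskew h3 w v u x y
  have b1 := gskew h2 u x y v w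
  have b2 := gskew h2 w x y v u
  have c1 := fskew h1 u x w v y
  simp only [map_add, LinearMap.add_apply]
  linear_combination (norm := module) c1 - a1 - a2 - b1 - b2

/-- the operator `X ↦ B X y z` -/
def rho (B : W →ₗ[ℂ] W →ₗ[ℂ] W →ₗ[ℂ] W) (y z : W) : W →ₗ[ℂ] W := (B.flip y).flip z

@[simp] lemma rho_apply (y z x : W) : rho B y z x = B x y z := rfl

/-- the Jordan operator `w ↦ B x y w + B w y x` -/
def Dop (B : W →ₗ[ℂ] W →ₗ[ℂ] W →ₗ[ℂ] W) (x y : W) : W →ₗ[ℂ] W := B x y + rho B y x

@[simp] lemma Dop_apply (x y w : W) : Dop B x y w = B x y w + B w y x := rfl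

/-- trace of the Jordan operator -/
noncomputable def tt (B : W →ₗ[ℂ] W →ₗ[ℂ] W →ₗ[ℂ] W) (x y : W) : ℂ :=
  LinearMap.trace ℂ W (Dop B x y)

theorem Dop_add_left (x x' y : W) : Dop B (x + x') y = Dop B x y + Dop B x' y := by
  ext w; simp; abel

theorem Dop_sub_left (x x' y : W) : Dop B (x - x') y = Dop B x y - Dop B x' y := by
  ext w; simp; abel

theorem Dop_smul_left (c : ℂ) (x y : W) : Dop B (c • x) y = c • Dop B x y := by
  ext w; simp

theorem Dop_add_right (x y y' : W) : Dop B x (y + y') = Dop B x y + Dop B x y' := by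
  ext w; simp; abel

theorem Dop_smul_right (c : ℂ) (x y : W) : Dop B x (c • y) = c • Dop B x y := by
  ext w; simp

theorem tt_one (h1 : I1 B) (h2 : I2 B) (h3 : I3 B) (x y u v : W) :
    tt B (B x y u) v = tt B u (B v x y) := by
  have key : (B x y) ∘ₗ (Dop B u v) = Dop B (B x y u) v + (Dop B u v) ∘ₗ (B x y)
      - Dop B u (B v x y) := by
    ext w
    have := struct1 h1 h2 h3 x y u v w
    simpa using this
  have h := congrArg (LinearMap.trace ℂ W) key
  have hc : LinearMap.trace ℂ W ((B x y) ∘ₗ (Dop B u v)) =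
      LinearMap.trace ℂ W ((Dop B u v) ∘ₗ (B x y)) := LinearMap.trace_mul_comm ℂ (B x y) (Dop B u v)
  rw [map_sub, map_add, hc] at h
  unfold tt
  linear_combination -h

theorem tt_two (h1 : I1 B) (h2 : I2 B) (h3 : I3 B) (x y u v : W) :
    tt B (B u x y) v = tt B u (B x y v) := by
  have key : (rho B x y) ∘ₗ (Dop B u v) = Dop B (B u x y) v + (Dop B u v) ∘ₗ (rho B x y)
      - Dop B u (B x y v) := by
    ext w
    have := struct2 h1 h2 h3 x y u v w
    simpa using this
  have h := congrArg (LinearMap.trace ℂ W) key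
  have hc : LinearMap.trace ℂ W ((rho B x y) ∘ₗ (Dop B u v)) =
      LinearMap.trace ℂ W ((Dop B u v) ∘ₗ (rho B x y)) :=
    LinearMap.trace_mul_comm ℂ (rho B x y) (Dop B u v)
  rw [map_sub, map_add, hc] at h
  unfold tt
  linear_combination -h

/-- the symmetric trace form -/
noncomputable def tau (B : W →ₗ[ℂ] W →ₗ[ℂ] W →ₗ[ℂ] W) : W →ₗ[ℂ] W →ₗ[ℂ] ℂ :=
  LinearMap.mk₂ ℂ (fun x y => tt B x y + tt B y x)
    (fun x x' y => by simp only [tt, Dop_add_left, Dop_add_right, map_add]; ring)
    (fun c x y => by simp only [tt, Dop_smul_left, Dop_smul_right, map_smul, smul_eq_mul]; ring)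
    (fun x y y' => by simp only [tt, Dop_add_left, Dop_add_right, map_add]; ring)
    (fun c x y => by simp only [tt, Dop_smul_left, Dop_smul_right, map_smul, smul_eq_mul]; ring)

lemma tau_apply (x y : W) : tau B x y = tt B x y + tt B y x := rfl

lemma tau_symm (x y : W) : tau B x y = tau B y x := by
  rw [tau_apply, tau_apply, add_comm]

/-- `tau` can be moved: `tau (x y u, v) = tau (u, v x y)` -/
theorem tau_l (h1 : I1 B) (h2 : I2 B) (h3 : I3 B) (x y u v : W) :
    tau B (B x y u) v = tau B u (B v x y) := by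
  rw [tau_apply, tau_apply, tt_one h1 h2 h3, ← tt_two h1 h2 h3 x y v u]

theorem tau_r (h1 : I1 B) (h2 : I2 B) (h3 : I3 B) (x y u v : W) :
    tau B (B u x y) v = tau B u (B x y v) := by
  rw [tau_apply, tau_apply, tt_two h1 h2 h3, ← tt_one h1 h2 h3 x y v u]

theorem tau_m (h1 : I1 B) (h2 : I2 B) (h3 : I3 B) (x y u v : W) :
    tau B (B x u y) v = tau B u (B y v x) := by
  rw [tau_apply, tau_apply, tt_one h1 h2 h3 x u y v, ← tt_two h1 h2 h3 v x y u,
    ← tt_one h1 h2 h3 u y v x, tt_two h1 h2 h3 y v u x, add_comm]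

end Pool.Agent.Triple97
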