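import Pool.Agent.Triple97.TKK

/-!
If the trace form vanishes, the Jordan triple product is not perfect.
-/

set_option autoImplicit false
set_option linter.unusedSimpArgs false
set_option linter.unusedVariables false

namespace Pool.Agent.Triple97

open LieAlgebra

variable {W : Type*} [AddCommGroup W] [Module ℂ W] {S : Sys W}

/-- first inclusion -/
def in1 (S : Sys W) : W →ₗ[ℂ] TKK S := LinearMap.inl ℂ W (derPairs S.B × W)
/-- second inclusion -/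
def in2 (S : Sys W) : derPairs S.B →ₗ[ℂ] TKK S :=
  LinearMap.inr ℂ W (derPairs S.B × W) ∘ₗ LinearMap.inl ℂ (derPairs S.B) W
/-- third inclusion -/
def in3 (S : Sys W) : W →ₗ[ℂ] TKK S :=
  LinearMap.inr ℂ W (derPairs S.B × W) ∘ₗ LinearMap.inr ℂ (derPairs S.B) W
/-- first projection -/
def pr1 (S : Sys W) : TKK S →ₗ[ℂ] W := LinearMap.fst ℂ W (derPairs S.B × W)
/-- second projection -/
def pr2 (S : Sys W) : TKK S →ₗ[ℂ] derPairs S.B :=
  LinearMap.fst ℂ (derPairs S.B) W ∘ₗ LinearMap.snd ℂ W (derPairs S.B × W)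
/-- third projection -/
def pr3 (S : Sys W) : TKK S →ₗ[ℂ] W :=
  LinearMap.snd ℂ (derPairs S.B) W ∘ₗ LinearMap.snd ℂ W (derPairs S.B × W)

lemma id_dec (S : Sys W) : (LinearMap.id : TKK S →ₗ[ℂ] TKK S) =
    in1 S ∘ₗ pr1 S + in2 S ∘ₗ pr2 S + in3 S ∘ₗ pr3 S := by
  apply LinearMap.ext
  intro p
  apply Prod.ext
  · change p.1 = p.1 + 0 + 0
    simp
  · apply Prod.ext
    · change p.2.1 = 0 + p.2.1 + 0
      simp
    · change p.2.2 = 0 + 0 + p.2.2
      simp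

variable [FiniteDimensional ℂ W]

instance (S : Sys W) : FiniteDimensional ℂ (TKK S) :=
  inferInstanceAs (FiniteDimensional ℂ (W × derPairs S.B × W))

lemma trace_dec (T : TKK S →ₗ[ℂ] TKK S) : LinearMap.trace ℂ (TKK S) T =
    LinearMap.trace ℂ W (pr1 S ∘ₗ T ∘ₗ in1 S) +
    LinearMap.trace ℂ (derPairs S.B) (pr2 S ∘ₗ T ∘ₗ in2 S) +
    LinearMap.trace ℂ W (pr3 S ∘ₗ T ∘ₗ in3 S) := by
  have h : T = (T ∘ₗ in1 S) ∘ₗ pr1 S + (T ∘ₗ in2 S) ∘ₗ pr2 S + (T ∘ₗ in3 S) ∘ₗ pr3 S := by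
    have := congrArg (fun g => T ∘ₗ g) (id_dec S)
    simpa [LinearMap.comp_add, LinearMap.comp_assoc] using this
  conv_lhs => rw [h]
  rw [map_add, map_add, LinearMap.trace_comp_comm' (T ∘ₗ in1 S) (pr1 S),
    LinearMap.trace_comp_comm' (T ∘ₗ in2 S) (pr2 S),
    LinearMap.trace_comp_comm' (T ∘ₗ in3 S) (pr3 S)]

/-- `v ↦ D(a, v)` as a linear map -/
def dl (S : Sys W) (a : W) : W →ₗ[ℂ] derPairs S.B where
  toFun v := dq S a v
  map_add' v v' := by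
    apply Subtype.ext
    apply Prod.ext
    · exact Dop_add_right a v v'
    · change - Dop S.B (v + v') a = - Dop S.B v a + - Dop S.B v' a
      rw [Dop_add_left]; abel
  map_smul' c v := by
    apply Subtype.ext
    apply Prod.ext
    · exact Dop_smul_right c a v
    · change - Dop S.B (c • v) a = c • - Dop S.B v a
      rw [Dop_smul_left]; simp

/-- `v ↦ D(v, b)` as a linear map -/
def dr (S : Sys W) (b : W) : W →ₗ[ℂ] derPairs S.B where
  toFun v := dq S v b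
  map_add' v v' := by
    apply Subtype.ext
    apply Prod.ext
    · exact Dop_add_left v v' b
    · change - Dop S.B b (v + v') = - Dop S.B b v + - Dop S.B b v'
      rw [Dop_add_right]; abel
  map_smul' c v := by
    apply Subtype.ext
    apply Prod.ext
    · exact Dop_smul_left c v b
    · change - Dop S.B b (c • v) = c • - Dop S.B b v
      rw [Dop_smul_right]; simp

/-- `X ↦ X.1 a` -/
def ev1 (S : Sys W) (a : W) : derPairs S.B →ₗ[ℂ] W where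
  toFun X := X.1.1 a
  map_add' X Y := rfl
  map_smul' c X := rfl

/-- `X ↦ - X.2 a` -/
def ev2 (S : Sys W) (a : W) : derPairs S.B →ₗ[ℂ] W where
  toFun X := - X.1.2 a
  map_add' X Y := by
    change - (X.1.2 a + Y.1.2 a) = - X.1.2 a + - Y.1.2 a
    abel
  map_smul' c X := by
    change - (c • X.1.2 a) = c • - X.1.2 a
    simp

lemma kf_plus (a : W) (q : TKK S) :
    killingForm ℂ (TKK S) (in1 S a) q = tau S.B a (pr3 S q) := by
  rw [killingForm_apply_apply, trace_dec, tau_apply]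
  have e1 : pr1 S ∘ₗ (ad ℂ (TKK S) (in1 S a) ∘ₗ ad ℂ (TKK S) q) ∘ₗ in1 S =
      Dop S.B a (pr3 S q) := by
    ext c
    change ⁅in1 S a, ⁅q, in1 S c⁆⁆.1 = _
    simp only [br_one, br_two]
    change (0 : W →ₗ[ℂ] W) _ - ((pr2 S q).1.1 ∘ₗ (0 : W →ₗ[ℂ] W) - (0 : W →ₗ[ℂ] W) ∘ₗ (pr2 S q).1.1
      + Dop S.B (pr1 S q) 0 - Dop S.B c (pr3 S q)) a = _
    simp [Dop]
    abel
  have e2 : pr2 S ∘ₗ (ad ℂ (TKK S) (in1 S a) ∘ₗ ad ℂ (TKK S) q) ∘ₗ in2 S =
      dl S a ∘ₗ ev2 S (pr3 S q) := by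
    apply LinearMap.ext
    intro Y
    change ⁅in1 S a, ⁅q, in2 S Y⁆⁆.2.1 = dq S a (- Y.1.2 (pr3 S q))
    rw [br_def, br_def]
    change cm (0 : derPairs S.B) _ + dq S a ((pr2 S q).1.2 0 - Y.1.2 (pr3 S q)) - dq S _ 0 = _
    apply Subtype.ext
    apply Prod.ext
    · change (0 : W →ₗ[ℂ] W) ∘ₗ _ - _ ∘ₗ (0 : W →ₗ[ℂ] W) + Dop S.B a _ - Dop S.B _ 0 = Dop S.B a _
      ext w
      simp [Dop]
      try abel
    · change (0 : W →ₗ[ℂ] W) ∘ₗ _ - _ ∘ₗ (0 : W →ₗ[ℂ] W) + - Dop S.B _ a - - Dop S.B 0 _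
        = - Dop S.B _ a
      ext w
      simp [Dop]
      try abel
  have e3 : pr3 S ∘ₗ (ad ℂ (TKK S) (in1 S a) ∘ₗ ad ℂ (TKK S) q) ∘ₗ in3 S = 0 := by
    ext d
    change ⁅in1 S a, ⁅q, in3 S d⁆⁆.2.2 = _
    simp only [br_four, br_two]
    change (0 : W →ₗ[ℂ] W) _ - _ = (0 : W)
    change (0 : W →ₗ[ℂ] W) _ - (⁅q, in3 S d⁆.2.1.1.2) 0 = (0 : W)
    simp
  have e4 : ev2 S (pr3 S q) ∘ₗ dl S a = Dop S.B (pr3 S q) a := by
    ext v
    change - (- Dop S.B v a) (pr3 S q) = _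
    simp only [LinearMap.neg_apply, neg_neg]
    rw [Dop_comm]
  rw [e1, e2, e3, LinearMap.trace_comp_comm' (ev2 S (pr3 S q)) (dl S a), e4]
  simp [tt]

lemma kf_minus (b : W) (q : TKK S) :
    killingForm ℂ (TKK S) (in3 S b) q = tau S.B b (pr1 S q) := by
  rw [killingForm_apply_apply, trace_dec, tau_apply]
  have e1 : pr1 S ∘ₗ (ad ℂ (TKK S) (in3 S b) ∘ₗ ad ℂ (TKK S) q) ∘ₗ in1 S = 0 := by
    ext c
    change ⁅in3 S b, ⁅q, in1 S c⁆⁆.1 = _
    simp only [br_one]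
    change (0 : W →ₗ[ℂ] W) _ - (⁅q, in1 S c⁆.2.1.1.1) 0 = (0 : W)
    simp
  have e2 : pr2 S ∘ₗ (ad ℂ (TKK S) (in3 S b) ∘ₗ ad ℂ (TKK S) q) ∘ₗ in2 S =
      dr S b ∘ₗ ev1 S (pr1 S q) := by
    apply LinearMap.ext
    intro Y
    change ⁅in3 S b, ⁅q, in2 S Y⁆⁆.2.1 = dq S (Y.1.1 (pr1 S q)) b
    rw [br_def, br_def]
    change cm (0 : derPairs S.B) _ + dq S 0 _ - dq S ((pr2 S q).1.1 0 - Y.1.1 (pr1 S q)) b = _
    apply Subtype.ext
    apply Prod.ext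
    · change (0 : W →ₗ[ℂ] W) ∘ₗ _ - _ ∘ₗ (0 : W →ₗ[ℂ] W) + Dop S.B 0 _ -
        Dop S.B ((pr2 S q).1.1 0 - Y.1.1 (pr1 S q)) b = Dop S.B _ b
      ext w
      simp [Dop]
      try abel
    · change (0 : W →ₗ[ℂ] W) ∘ₗ _ - _ ∘ₗ (0 : W →ₗ[ℂ] W) + - Dop S.B _ 0 -
        - Dop S.B b ((pr2 S q).1.1 0 - Y.1.1 (pr1 S q)) = - Dop S.B b _
      ext w
      simp [Dop]
      try abel
  have e3 : pr3 S ∘ₗ (ad ℂ (TKK S) (in3 S b) ∘ₗ ad ℂ (TKK S) q) ∘ₗ in3 S =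
      Dop S.B b (pr1 S q) := by
    ext d
    change ⁅in3 S b, ⁅q, in3 S d⁆⁆.2.2 = _
    simp only [br_four, br_three]
    change (0 : W →ₗ[ℂ] W) _ - ((pr2 S q).1.2 ∘ₗ (0 : W →ₗ[ℂ] W) - (0 : W →ₗ[ℂ] W) ∘ₗ (pr2 S q).1.2
      + (- Dop S.B d (pr1 S q)) - (- Dop S.B (pr3 S q) 0)) b = _
    simp [Dop]
    abel
  rw [e1, e2, e3, LinearMap.trace_comp_comm' (ev1 S (pr1 S q)) (dr S b)]
  have e4 : ev1 S (pr1 S q) ∘ₗ dr S b = Dop S.B (pr1 S q) b := by
    ext v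
    change (Dop S.B v b) (pr1 S q) = _
    rw [Dop_comm]
  rw [e4]
  simp [tt, add_comm]

omit [FiniteDimensional ℂ W] in
lemma Dop_zero_left (y : W) : Dop S.B 0 y = 0 := by ext w; simp
omit [FiniteDimensional ℂ W] in
lemma Dop_zero_right (y : W) : Dop S.B y 0 = 0 := by ext w; simp

omit [FiniteDimensional ℂ W] in
lemma br13 (x y : W) : ⁅in1 S x, in3 S y⁆ = in2 S (dq S x y) := by
  apply TKK.ext
  · change (0 : W →ₗ[ℂ] W) 0 - (0 : W →ₗ[ℂ] W) x = (0 : W)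
    simp
  · intro w
    change ((0 : W →ₗ[ℂ] W) ∘ₗ (0 : W →ₗ[ℂ] W) - (0 : W →ₗ[ℂ] W) ∘ₗ (0 : W →ₗ[ℂ] W) +
      Dop S.B x y - Dop S.B 0 0) w =
      Dop S.B x y w
    simp [Dop_zero_left]
  · intro w
    change ((0 : W →ₗ[ℂ] W) ∘ₗ (0 : W →ₗ[ℂ] W) - (0 : W →ₗ[ℂ] W) ∘ₗ (0 : W →ₗ[ℂ] W) +
      (- Dop S.B y x) - (- Dop S.B 0 0)) w =
      (- Dop S.B y x) w
    simp [Dop_zero_left]
  · change (0 : W →ₗ[ℂ] W) y - (0 : W →ₗ[ℂ] W) 0 = (0 : W)
    simp

omit [FiniteDimensional ℂ W] in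
lemma br21 (x y z : W) : ⁅in2 S (dq S x y), in1 S z⁆ = in1 S (Dop S.B x y z) := by
  apply TKK.ext
  · change Dop S.B x y z - (0 : W →ₗ[ℂ] W) 0 = Dop S.B x y z
    simp
  · intro w
    change (Dop S.B x y ∘ₗ (0 : W →ₗ[ℂ] W) - (0 : W →ₗ[ℂ] W) ∘ₗ Dop S.B x y + Dop S.B 0 0 - Dop S.B z 0) w =
      (0 : W →ₗ[ℂ] W) w
    simp [Dop_zero_left]
  · intro w
    change ((- Dop S.B y x) ∘ₗ (0 : W →ₗ[ℂ] W) - (0 : W →ₗ[ℂ] W) ∘ₗ (- Dop S.B y x) + (- Dop S.B 0 0)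
      - (- Dop S.B 0 z)) w = (0 : W →ₗ[ℂ] W) w
    simp [Dop_zero_left]
  · change (- Dop S.B y x) 0 - (0 : W →ₗ[ℂ] W) 0 = (0 : W)
    simp

omit [FiniteDimensional ℂ W] in
lemma br23 (x y z : W) : ⁅in2 S (dq S y x), in3 S z⁆ = - in3 S (Dop S.B x y z) := by
  apply TKK.ext
  · change Dop S.B y x 0 - (0 : W →ₗ[ℂ] W) 0 = - (0 : W)
    simp
  · intro w
    change (Dop S.B y x ∘ₗ (0 : W →ₗ[ℂ] W) - (0 : W →ₗ[ℂ] W) ∘ₗ Dop S.B y x + Dop S.B 0 z - Dop S.B 0 0) w =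
      (-(0 : W →ₗ[ℂ] W)) w
    simp [Dop_zero_left]
  · intro w
    change ((- Dop S.B x y) ∘ₗ (0 : W →ₗ[ℂ] W) - (0 : W →ₗ[ℂ] W) ∘ₗ (- Dop S.B x y) + (- Dop S.B z 0)
      - (- Dop S.B 0 0)) w = (-(0 : W →ₗ[ℂ] W)) w
    simp [Dop_zero_left]
  · change (- Dop S.B x y) z - (0 : W →ₗ[ℂ] W) 0 = - Dop S.B x y z
    simp

/-- If the trace form vanishes then the Jordan product is not perfect. -/
theorem not_perfect (S : Sys W) [Nontrivial W] (h0 : tau S.B = 0) :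
    Submodule.span ℂ {w : W | ∃ x y z, w = Dop S.B x y z} ≠ ⊤ := by
  intro htop
  set I : LieIdeal ℂ (TKK S) := LieIdeal.killingCompl ℂ (TKK S) ⊤ with hI
  have hsol : IsSolvable I :=
    le_solvable_ideal_solvable (killingCompl_top_le_radical ℂ (TKK S)) inferInstance
  obtain ⟨k, hk⟩ := IsSolvable.solvable ℂ I
  rw [LieIdeal.derivedSeries_eq_bot_iff] at hk
  have main : ∀ n : ℕ, (∀ a : W, in1 S a ∈ derivedSeriesOfIdeal ℂ (TKK S) n I) ∧
      (∀ b : W, in3 S b ∈ derivedSeriesOfIdeal ℂ (TKK S) n I) := by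
    intro n
    induction n with
    | zero =>
      rw [derivedSeriesOfIdeal_zero]
      refine ⟨fun a => ?_, fun b => ?_⟩
      · rw [hI, LieIdeal.mem_killingCompl]
        intro y _
        rw [LieModule.traceForm_comm, kf_plus, h0]; rfl
      · rw [hI, LieIdeal.mem_killingCompl]
        intro y _
        rw [LieModule.traceForm_comm, kf_minus, h0]; rfl
    | succ n ih =>
      rw [derivedSeriesOfIdeal_succ]
      obtain ⟨ih1, ih3⟩ := ih
      have hD : ∀ x y : W, in2 S (dq S x y) ∈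
          ⁅derivedSeriesOfIdeal ℂ (TKK S) n I, derivedSeriesOfIdeal ℂ (TKK S) n I⁆ := by
        intro x y
        have h1 := LieSubmodule.lie_mem_lie (ih1 x) (ih3 y)
        have h2 : ⁅in1 S x, in3 S y⁆ = in2 S (dq S x y) := br13 x y
        rwa [h2] at h1
      have hD' : ∀ x y : W, in2 S (dq S x y) ∈ derivedSeriesOfIdeal ℂ (TKK S) n I := by
        intro x y
        exact LieSubmodule.lie_le_left _ _ (hD x y)
      refine ⟨fun a => ?_, fun b => ?_⟩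
      · have ha : a ∈ Submodule.span ℂ {w : W | ∃ x y z, w = Dop S.B x y z} := by
          rw [htop]; trivial
        induction ha using Submodule.span_induction with
        | mem w hw =>
          obtain ⟨x, y, z, rfl⟩ := hw
          have h1 := LieSubmodule.lie_mem_lie (hD' x y) (ih1 z)
          have h2 : ⁅in2 S (dq S x y), in1 S z⁆ = in1 S (Dop S.B x y z) := br21 x y z
          rwa [h2] at h1
        | zero => rw [map_zero]; exact zero_mem _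
        | add u v _ _ hu hv => rw [map_add]; exact add_mem hu hv
        | smul c u _ hu => rw [map_smul]; exact Submodule.smul_mem _ c hu
      · have ha : b ∈ Submodule.span ℂ {w : W | ∃ x y z, w = Dop S.B x y z} := by
          rw [htop]; trivial
        induction ha using Submodule.span_induction with
        | mem w hw =>
          obtain ⟨x, y, z, rfl⟩ := hw
          have h1 := LieSubmodule.lie_mem_lie (hD' y x) (ih3 z)
          have h2 : ⁅in2 S (dq S y x), in3 S z⁆ = - in3 S (Dop S.B x y z) := br23 x y z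
          rw [h2] at h1
          exact neg_mem_iff.mp h1
        | zero => rw [map_zero]; exact zero_mem _
        | add u v _ _ hu hv => rw [map_add]; exact add_mem hu hv
        | smul c u _ hu => rw [map_smul]; exact Submodule.smul_mem _ c hu
  obtain ⟨w, hw⟩ := exists_ne (0 : W)
  have := (main k).1 w
  rw [hk] at this
  have h2 : in1 S w = 0 := by simpa using this
  exact hw (congrArg (pr1 S) h2)

end Pool.Agent.Triple97
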