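import Pool.Agent.Triple97.Defs

/-!
Classification of systems represented faithfully on a pair of spaces.
-/

set_option autoImplicit false

namespace Pool.Agent.Triple97

open Module

variable {W X Y : Type*} [AddCommGroup W] [Module ℂ W] {B : W →ₗ[ℂ] W →ₗ[ℂ] W →ₗ[ℂ] W}
  [AddCommGroup X] [Module ℂ X] [FiniteDimensional ℂ X]
  [AddCommGroup Y] [Module ℂ Y] [FiniteDimensional ℂ Y]

omit [FiniteDimensional ℂ Y] in
theorem submodule_top_of_rank_one (S : Submodule ℂ (X →ₗ[ℂ] Y))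
    (h : ∀ (f : X →ₗ[ℂ] ℂ) (y : Y), f.smulRight y ∈ S) : S = ⊤ := by
  rw [eq_top_iff]
  intro A _
  let b := Module.finBasis ℂ X
  have hA : A = ∑ i, (b.coord i).smulRight (A (b i)) := by
    ext x
    calc A x = A (∑ i, b.repr x i • b i) := by rw [b.sum_repr x]
      _ = ∑ i, b.repr x i • A (b i) := by rw [map_sum]; simp only [map_smul]
      _ = _ := by simp [LinearMap.sum_apply]
  rw [hA]
  exact Submodule.sum_mem _ (fun i _ => h _ _)

theorem isRect_of_equiv (P : W →ₗ[ℂ] Y →ₗ[ℂ] X) (M : W →ₗ[ℂ] X →ₗ[ℂ] Y)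
    (hP : ∀ a b c, P (B a b c) = P a ∘ₗ M b ∘ₗ P c)
    (hM : ∀ a b c, M (B a b c) = M a ∘ₗ P b ∘ₗ M c)
    (hbij : Function.Bijective (P.prod M)) : IsRect B (finrank ℂ X) (finrank ℂ Y) := by
  let bX := Module.finBasis ℂ X
  let bY := Module.finBasis ℂ Y
  let e1 : W ≃ₗ[ℂ] (Y →ₗ[ℂ] X) × (X →ₗ[ℂ] Y) := LinearEquiv.ofBijective (P.prod M) hbij
  refine ⟨e1.trans (LinearEquiv.prodCongr (LinearMap.toMatrix bY bX) (LinearMap.toMatrix bX bY)),
    ?_⟩
  have he : ∀ w, e1 w = (P w, M w) := fun w => rfl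
  intro x y z
  simp only [LinearEquiv.trans_apply, LinearEquiv.prodCongr_apply, he, hP, hM,
    LinearMap.toMatrix_comp bY bX bY, LinearMap.toMatrix_comp bX bY bX,
    LinearMap.toMatrix_comp bY bY bX, LinearMap.toMatrix_comp bX bX bY, Matrix.mul_assoc]

theorem isRect_swap {p q : ℕ} (h : IsRect B p q) : IsRect B q p := by
  obtain ⟨e, he⟩ := h
  refine ⟨e.trans (LinearEquiv.prodComm ℂ _ _), ?_⟩
  intro x y z
  simp only [LinearEquiv.trans_apply, LinearEquiv.prodComm_apply, he, Prod.swap]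

theorem isRect_of_kernel (P : W →ₗ[ℂ] Y →ₗ[ℂ] X) (M : W →ₗ[ℂ] X →ₗ[ℂ] Y)
    (hP : ∀ a b c, P (B a b c) = P a ∘ₗ M b ∘ₗ P c)
    (hM : ∀ a b c, M (B a b c) = M a ∘ₗ P b ∘ₗ M c)
    (sP : Function.Surjective P) (sM : Function.Surjective M)
    (inj : ∀ w, P w = 0 → M w = 0 → w = 0) {w : W} (hw : w ≠ 0) (hPw : P w = 0) :
    IsRect B (finrank ℂ X) (finrank ℂ Y) := by
  have hMw : M w ≠ 0 := fun h => hw (inj w hPw h)
  obtain ⟨x1, hx1⟩ : ∃ x1, M w x1 ≠ 0 := by
    by_contra hcon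
    push Not at hcon
    exact hMw (LinearMap.ext hcon)
  have hx1' : x1 ≠ 0 := fun h => hx1 (by rw [h, map_zero])
  have hS : (LinearMap.ker P).map M = ⊤ := by
    apply submodule_top_of_rank_one
    intro f y0
    obtain ⟨g, hg⟩ := Projective.exists_dual_eq_one ℂ hx1
    obtain ⟨g', hg'⟩ := Projective.exists_dual_eq_one ℂ hx1'
    obtain ⟨a, ha⟩ := sM (g'.smulRight y0)
    obtain ⟨b, hb⟩ := sP (g.smulRight x1)
    obtain ⟨d, hd⟩ := sM (f.smulRight (M w x1))
    refine ⟨B a b (B w b d), ?_, ?_⟩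
    · change P _ = 0
      rw [hP, hP, hPw]; simp
    · rw [hM, hM, ha, hb, hd]
      ext x
      simp [hg, hg']
  apply isRect_of_equiv P M hP hM
  constructor
  · rw [← LinearMap.ker_eq_bot, LinearMap.ker_eq_bot']
    intro m hm
    have hm' : (P m, M m) = (0, 0) := hm
    rw [Prod.mk.injEq] at hm'
    exact inj m hm'.1 hm'.2
  · rintro ⟨A, A'⟩
    obtain ⟨v, hv⟩ := sP A
    have : A' - M v ∈ (LinearMap.ker P).map M := by rw [hS]; trivial
    obtain ⟨k, hk, hk'⟩ := this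
    have hk0 : P k = 0 := hk
    refine ⟨v + k, ?_⟩
    change (P (v + k), M (v + k)) = (A, A')
    rw [map_add, map_add, hv, hk0, hk', add_zero, add_sub_cancel]

theorem finrank_le_of (P : W →ₗ[ℂ] Y →ₗ[ℂ] X) (M : W →ₗ[ℂ] X →ₗ[ℂ] Y)
    (hP : ∀ a b c, P (B a b c) = P a ∘ₗ M b ∘ₗ P c)
    (hM : ∀ a b c, M (B a b c) = M a ∘ₗ P b ∘ₗ M c)
    (sP : Function.Surjective P) (sM : Function.Surjective M)
    (iP : Function.Injective P) (hX : Nontrivial X)
    (hle : finrank ℂ X ≤ finrank ℂ Y) : finrank ℂ Y ≤ finrank ℂ X := by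
  obtain ⟨i, hi⟩ := finrank_le_iff_exists_linearMap.1 hle
  obtain ⟨s, hs⟩ := LinearMap.exists_leftInverse_of_injective i (LinearMap.ker_eq_bot.2 hi)
  obtain ⟨x0, hx0⟩ := sP s
  obtain ⟨y0, hy0⟩ := sM i
  have h1 : ∀ w, B x0 y0 w = w := by
    intro w
    apply iP
    rw [hP, hx0, hy0, ← LinearMap.comp_assoc, hs, LinearMap.id_comp]
  obtain ⟨v, hv⟩ := exists_ne (0 : X)
  obtain ⟨f, hf⟩ := Projective.exists_dual_eq_one ℂ hv
  have h2 : ∀ y : Y, M x0 (P y0 y) = y := by
    intro y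
    obtain ⟨w, hw⟩ := sM (f.smulRight y)
    have h3 := congrArg (fun t => M t v) (h1 w)
    simp only [hM, hw, LinearMap.comp_apply, LinearMap.smulRight_apply, hf, one_smul] at h3
    exact h3
  have h4 : Function.Injective (P y0) := Function.LeftInverse.injective h2
  exact LinearMap.finrank_le_finrank_of_injective h4

theorem isMat_of_injective (P : W →ₗ[ℂ] Y →ₗ[ℂ] X) (M : W →ₗ[ℂ] X →ₗ[ℂ] Y)
    (hP : ∀ a b c, P (B a b c) = P a ∘ₗ M b ∘ₗ P c)
    (hM : ∀ a b c, M (B a b c) = M a ∘ₗ P b ∘ₗ M c)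
    (sP : Function.Surjective P) (sM : Function.Surjective M)
    (iP : Function.Injective P) (iM : Function.Injective M) (hX : Nontrivial X)
    (hY : Nontrivial Y) : IsMat B (finrank ℂ X) := by
  have hfr : finrank ℂ Y = finrank ℂ X := by
    rcases le_total (finrank ℂ X) (finrank ℂ Y) with h | h
    · exact le_antisymm (finrank_le_of P M hP hM sP sM iP hX h) h
    · exact le_antisymm h (finrank_le_of M P hM hP sM sP iM hY h)
  let s : Y ≃ₗ[ℂ] X := LinearEquiv.ofFinrankEq Y X hfr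
  let Pe : W ≃ₗ[ℂ] (Y →ₗ[ℂ] X) := LinearEquiv.ofBijective P ⟨iP, sP⟩
  let Me : W ≃ₗ[ℂ] (X →ₗ[ℂ] Y) := LinearEquiv.ofBijective M ⟨iM, sM⟩
  have hPe : ∀ A, P (Pe.symm A) = A := fun A => Pe.apply_symm_apply A
  have hMe : ∀ A, M (Me.symm A) = A := fun A => Me.apply_symm_apply A
  set x0 := Pe.symm s.toLinearMap with hx0
  set y0 := Me.symm s.symm.toLinearMap with hy0
  have h1 : ∀ w, B x0 y0 w = w := by
    intro w
    apply iP
    rw [hP, hx0, hy0, hPe, hMe, ← LinearMap.comp_assoc]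
    simp
  obtain ⟨v, hv⟩ := exists_ne (0 : X)
  obtain ⟨f, hf⟩ := Projective.exists_dual_eq_one ℂ hv
  have h2 : ∀ y : Y, M x0 (P y0 y) = y := by
    intro y
    obtain ⟨w, hw⟩ := sM (f.smulRight y)
    have h3 := congrArg (fun t => M t v) (h1 w)
    simp only [hM, hw, LinearMap.comp_apply, LinearMap.smulRight_apply, hf, one_smul] at h3
    exact h3
  have h4 : Function.Injective (P y0) := Function.LeftInverse.injective h2
  have h5 : Function.Bijective (P y0) := ⟨h4, (LinearMap.injective_iff_surjective_of_finrank_eq_finrank hfr).1 h4⟩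
  let py : Y ≃ₗ[ℂ] X := LinearEquiv.ofBijective (P y0) h5
  have hpy : py.toLinearMap = P y0 := rfl
  have hpy' : M x0 = py.symm.toLinearMap := by
    ext x
    obtain ⟨y, rfl⟩ := h5.2 x
    rw [h2]
    exact (py.symm_apply_apply y).symm
  -- the algebra isomorphism
  let al : (X →ₗ[ℂ] X) →ₗ[ℂ] (Y →ₗ[ℂ] Y) :=
    { toFun := fun S => M (Pe.symm (S ∘ₗ s.toLinearMap)) ∘ₗ P y0
      map_add' := fun S T => by rw [LinearMap.add_comp, map_add, map_add, LinearMap.add_comp]
      map_smul' := fun c S => by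
        rw [LinearMap.smul_comp, map_smul, map_smul, LinearMap.smul_comp]; rfl }
  have hal : ∀ S : X →ₗ[ℂ] X, al S = M (Pe.symm (S ∘ₗ s.toLinearMap)) ∘ₗ P y0 := fun S => rfl
  have halP : ∀ w, al (P w ∘ₗ s.symm.toLinearMap) = M w ∘ₗ P y0 := by
    intro w
    have : (P w ∘ₗ s.symm.toLinearMap) ∘ₗ s.toLinearMap = Pe w := by
      ext y
      change P w (s.symm (s y)) = P w y
      rw [LinearEquiv.symm_apply_apply]
    rw [hal, this, Pe.symm_apply_apply]
  have hone : al (1 : Module.End ℂ X) = (1 : Module.End ℂ Y) := by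
    rw [hal]
    ext y
    exact h2 y
  have hmul : ∀ S T : Module.End ℂ X, al (S * T) = (al S : Module.End ℂ Y) * al T := by
    intro S T
    have h6 : (S * T : Module.End ℂ X) ∘ₗ s.toLinearMap =
        P (B (Pe.symm (S ∘ₗ s.toLinearMap)) y0 (Pe.symm (T ∘ₗ s.toLinearMap))) := by
      rw [hP, hPe, hPe, hy0, hMe]
      ext y
      simp
    have h7 : Pe.symm ((S * T : Module.End ℂ X) ∘ₗ s.toLinearMap) =
        B (Pe.symm (S ∘ₗ s.toLinearMap)) y0 (Pe.symm (T ∘ₗ s.toLinearMap)) := by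
      rw [h6]; exact Pe.symm_apply_apply _
    rw [hal, h7, hM, hal, hal]
    rfl
  have hbij : Function.Bijective al := by
    constructor
    · rw [← LinearMap.ker_eq_bot, LinearMap.ker_eq_bot']
      intro S hS
      rw [hal] at hS
      have h8 : M (Pe.symm (S ∘ₗ s.toLinearMap)) = 0 := by
        ext x
        obtain ⟨y, rfl⟩ := h5.2 x
        exact LinearMap.congr_fun hS y
      have h9 : Pe.symm (S ∘ₗ s.toLinearMap) = 0 := by
        apply iM; rw [h8, map_zero]
      have h10 : S ∘ₗ s.toLinearMap = 0 := by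
        rw [← hPe (S ∘ₗ s.toLinearMap), h9, map_zero]
      ext x
      obtain ⟨y, rfl⟩ := s.surjective x
      exact LinearMap.congr_fun h10 y
    · intro S'
      obtain ⟨w, hw⟩ := sM (S' ∘ₗ py.symm.toLinearMap)
      refine ⟨P w ∘ₗ s.symm.toLinearMap, ?_⟩
      rw [halP, hw]
      ext y
      change S' (py.symm (py y)) = S' y
      rw [py.symm_apply_apply]
  let alh : Module.End ℂ X →ₐ[ℂ] Module.End ℂ Y := AlgHom.ofLinearMap al hone hmul
  let ale : Module.End ℂ X ≃ₐ[ℂ] Module.End ℂ Y := AlgEquiv.ofBijective alh hbij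
  obtain ⟨T, hT⟩ := AlgEquiv.eq_linearEquivConjAlgEquiv ale
  have hT' : ∀ S : X →ₗ[ℂ] X, al S = T.toLinearMap ∘ₗ S ∘ₗ T.symm.toLinearMap := by
    intro S
    have : ale S = T.conjAlgEquiv ℂ S := by rw [hT]
    exact this
  let H : X ≃ₗ[ℂ] Y := (py.symm.trans T.symm).trans s.symm
  have hMw : ∀ w x, M w x = T (P w (H x)) := by
    intro w x
    have h11 := halP w
    rw [hT'] at h11
    have h12 := LinearMap.congr_fun h11 (py.symm x)
    have h13 : P y0 (py.symm x) = x := py.apply_symm_apply x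
    simp only [LinearMap.comp_apply, h13] at h12
    exact h12.symm
  have hcomm : ∀ (S : X →ₗ[ℂ] X) (x : X), S (T.symm (H x)) = T.symm (H (S x)) := by
    intro S x
    have h14 := hM (Pe.symm T.symm.toLinearMap) (Pe.symm (S ∘ₗ T.symm.toLinearMap))
      (Pe.symm T.symm.toLinearMap)
    have h15 := LinearMap.congr_fun h14 (H.symm (T x))
    simp only [hMw, hP, hPe, LinearMap.comp_apply, LinearEquiv.coe_coe,
      LinearEquiv.apply_symm_apply, LinearEquiv.symm_apply_apply] at h15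
    rw [← h15, LinearEquiv.symm_apply_apply]
  set γ : ℂ := f (T.symm (H v)) with hγ
  have hH : ∀ x, H x = γ • T x := by
    intro x
    have h16 := hcomm (f.smulRight x) v
    simp only [LinearMap.smulRight_apply, hf, one_smul] at h16
    rw [← hγ] at h16
    rw [← map_smul, h16, LinearEquiv.apply_symm_apply]
  have hγ0 : γ ≠ 0 := by
    intro h0
    have := hH v
    rw [h0, zero_smul] at this
    exact hv (H.injective (by rw [this, map_zero]))
  obtain ⟨δ, hδ⟩ := IsAlgClosed.exists_pow_nat_eq γ (n := 2) two_pos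
  have hδ0 : δ ≠ 0 := by
    rintro rfl
    exact hγ0 (by rw [← hδ]; simp)
  let E : W →ₗ[ℂ] Module.End ℂ X :=
    { toFun := fun w => δ • (P w ∘ₗ T.toLinearMap)
      map_add' := fun w w' => by rw [map_add, LinearMap.add_comp, smul_add]
      map_smul' := fun c w => by
        rw [map_smul, LinearMap.smul_comp, smul_comm]; rfl }
  have hE : ∀ w x, E w x = δ • P w (T x) := fun w x => rfl
  have hEmul : ∀ a b c, E (B a b c) = E a * E b * E c := by
    intro a b c
    ext x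
    simp only [Module.End.mul_apply, hE, hP, LinearMap.comp_apply, hMw, hH, map_smul, smul_smul,
      ← hδ]
    ring_nf
  have hEbij : Function.Bijective E := by
    constructor
    · rw [← LinearMap.ker_eq_bot, LinearMap.ker_eq_bot']
      intro w hw
      apply iP
      rw [map_zero]
      ext y
      obtain ⟨x, rfl⟩ := T.surjective y
      have h17 := LinearMap.congr_fun hw x
      rw [hE] at h17
      exact (smul_eq_zero.1 h17).resolve_left hδ0
    · intro S
      obtain ⟨w, hw⟩ := sP (δ⁻¹ • (S ∘ₗ T.symm.toLinearMap))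
      refine ⟨w, ?_⟩
      ext x
      rw [hE, hw]
      simp [smul_smul, hδ0]
  let Ee : W ≃ₗ[ℂ] Module.End ℂ X := LinearEquiv.ofBijective E hEbij
  refine ⟨Ee.trans (LinearMap.toMatrixAlgEquiv (Module.finBasis ℂ X)).toLinearEquiv, ?_⟩
  intro x y z
  have hEe : ∀ w, Ee w = E w := fun w => rfl
  simp only [LinearEquiv.trans_apply, hEe, hEmul, AlgEquiv.toLinearEquiv_apply, map_mul]

end Pool.Agent.Triple97
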