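import Mathlib

/-!
Triple systems with the three associativity type identities (I1), (I2), (I3).
-/

set_option autoImplicit false

namespace Pool.Agent.Triple97

/-- Identity (I1): `B(X,Y,B(X,V,U)) = B(X,B(Y,X,V),U)`. -/
def I1 {W : Type*} [AddCommGroup W] [Module ℂ W] (B : W →ₗ[ℂ] W →ₗ[ℂ] W →ₗ[ℂ] W) : Prop :=
  ∀ X Y V U : W, B X Y (B X V U) = B X (B Y X V) U

/-- Identity (I2): `B(X,B(Y,Z,V),Z) = B(B(X,Y,Z),V,Z)`. -/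
def I2 {W : Type*} [AddCommGroup W] [Module ℂ W] (B : W →ₗ[ℂ] W →ₗ[ℂ] W →ₗ[ℂ] W) : Prop :=
  ∀ X Y Z V : W, B X (B Y Z V) Z = B (B X Y Z) V Z

/-- Identity (I3): `B(X,Y,B(Z,Y,V)) = B(B(X,Y,Z),Y,V)`. -/
def I3 {W : Type*} [AddCommGroup W] [Module ℂ W] (B : W →ₗ[ℂ] W →ₗ[ℂ] W →ₗ[ℂ] W) : Prop :=
  ∀ X Y Z V : W, B X Y (B Z Y V) = B (B X Y Z) Y V

/-- `I` is an ideal of the triple system `(W, B)`. -/
def IsTIdeal {W : Type*} [AddCommGroup W] [Module ℂ W] (B : W →ₗ[ℂ] W →ₗ[ℂ] W →ₗ[ℂ] W)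
    (I : Submodule ℂ W) : Prop :=
  ∀ x ∈ I, ∀ y z : W, B x y z ∈ I ∧ B y x z ∈ I ∧ B y z x ∈ I

/-- The triple system `(W, B)` is simple: the product is nonzero and the only ideals are the
zero ideal and the whole space. -/
def IsSimpleTriple {W : Type*} [AddCommGroup W] [Module ℂ W]
    (B : W →ₗ[ℂ] W →ₗ[ℂ] W →ₗ[ℂ] W) : Prop :=
  B ≠ 0 ∧ ∀ I : Submodule ℂ W, IsTIdeal B I → I = ⊥ ∨ I = ⊤

/-- `(W, B)` is isomorphic to the triple system of `n` by `n` complex matrices with the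
product `XYZ`. -/
def IsMat {W : Type*} [AddCommGroup W] [Module ℂ W] (B : W →ₗ[ℂ] W →ₗ[ℂ] W →ₗ[ℂ] W)
    (n : ℕ) : Prop :=
  ∃ e : W ≃ₗ[ℂ] Matrix (Fin n) (Fin n) ℂ, ∀ x y z : W, e (B x y z) = e x * e y * e z

/-- `(W, B)` is isomorphic to the triple system of pairs `(a, a')` of a `p` by `q` matrix and a
`q` by `p` matrix, with the product `(a, a'), (b, b'), (c, c') ↦ (a b' c, a' b c')`. -/
def IsRect {W : Type*} [AddCommGroup W] [Module ℂ W] (B : W →ₗ[ℂ] W →ₗ[ℂ] W →ₗ[ℂ] W)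
    (p q : ℕ) : Prop :=
  ∃ e : W ≃ₗ[ℂ] (Matrix (Fin p) (Fin q) ℂ × Matrix (Fin q) (Fin p) ℂ), ∀ x y z : W,
    e (B x y z) = ((e x).1 * (e y).2 * (e z).1, (e x).2 * (e y).1 * (e z).2)

end Pool.Agent.Triple97
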