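import Pool.Agent.Triple97.Nucleus
import Pool.Agent.Triple97.Classify

/-!
The representation of a simple system on the two Peirce half spaces of a rank one
idempotent pair in the nucleus.
-/

set_option autoImplicit false

namespace Pool.Agent.Triple97

open Module

variable {W : Type*} [AddCommGroup W] [Module ℂ W] {B : W →ₗ[ℂ] W →ₗ[ℂ] W →ₗ[ℂ] W}

/-- a rank one idempotent pair lying in the nucleus -/
structure NP (B : W →ₗ[ℂ] W →ₗ[ℂ] W →ₗ[ℂ] W) (u z : W) : Prop where
  hu : B u z u = u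
  hz : B z u z = z
  hu0 : u ≠ 0
  hU : ∀ x, B u z x = x → B x z u = x → ∃ c : ℂ, x = c • u
  hV : ∀ y, B z u y = y → B y u z = y → ∃ c : ℂ, y = c • z
  nu : InNuc B u
  nz : InNuc B z

lemma NP.swap {u z : W} (h : NP B u z) : NP B z u where
  hu := h.hz
  hz := h.hu
  hu0 := fun hz0 => h.hu0 (by rw [← h.hu, hz0]; simp)
  hU := h.hV
  hV := h.hU
  nu := h.nz
  nz := h.nu

/-- the half space of all `x` with `B x z u = x` -/
def PS (B : W →ₗ[ℂ] W →ₗ[ℂ] W →ₗ[ℂ] W) (z u : W) : Submodule ℂ W where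
  carrier := {x | B x z u = x}
  add_mem' := fun {a b} ha hb => by
    change B (a + b) z u = a + b
    have ha' : B a z u = a := ha
    have hb' : B b z u = b := hb
    rw [map_add, LinearMap.add_apply, LinearMap.add_apply, ha', hb']
  zero_mem' := by
    change B 0 z u = 0
    simp
  smul_mem' := fun c x hx => by
    change B (c • x) z u = c • x
    have hx' : B x z u = x := hx
    rw [map_smul, LinearMap.smul_apply, LinearMap.smul_apply, hx']

lemma mem_PS {z u x : W} : x ∈ PS B z u ↔ B x z u = x := Iff.rfl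

/-- the representation -/
noncomputable def phi {u z : W} (h : NP B u z) : W →ₗ[ℂ] PS B u z →ₗ[ℂ] PS B z u :=
  LinearMap.mk₂ ℂ (fun w y => ⟨B w y u, by
      rw [mem_PS, ← (h.nu w y u z).2.2.2.2.2, h.hu]⟩)
    (fun w w' y => by ext; simp)
    (fun c w y => by ext; simp)
    (fun w y y' => by ext; simp)
    (fun c w y => by ext; simp)

lemma phi_coe {u z : W} (h : NP B u z) (w : W) (y : PS B u z) :
    (phi h w y : W) = B w y u := rfl

lemma phi_mul {u z : W} (h : NP B u z) (a b c : W) :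
    phi h (B a b c) = phi h a ∘ₗ phi h.swap b ∘ₗ phi h c := by
  ext y
  have hy : B (y : W) u z = y := y.2
  change B (B a b c) (y : W) u = B a (B b (B c (y : W) u) z) u
  rw [← (h.nz b c (y : W) u).2.2.2.2.1, hy, ← (h.nu a b c (y : W)).2.2.2.2.1,
    (h.nu a b c (y : W)).2.2.2.2.2]

lemma dual_surj [FiniteDimensional ℂ W] {β : W →ₗ[ℂ] W →ₗ[ℂ] ℂ} (hβ : PForm B β)
    (S : Submodule ℂ W) (f : S →ₗ[ℂ] ℂ) : ∃ c : W, ∀ y : S, f y = β c y := by
  obtain ⟨F, hF⟩ := f.exists_extend
  have hinj : Function.Injective β := by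
    rw [← LinearMap.ker_eq_bot, LinearMap.ker_eq_bot']
    intro m hm
    exact hβ.hnd m (fun y => by rw [hm]; rfl)
  have hsurj : Function.Surjective β :=
    (LinearMap.injective_iff_surjective_of_finrank_eq_finrank
      (Subspace.dual_finrank_eq (K := ℂ) (V := W)).symm).1 hinj
  obtain ⟨c, hc⟩ := hsurj F
  refine ⟨c, fun y => ?_⟩
  rw [hc, ← hF]
  rfl

lemma phi_surj [FiniteDimensional ℂ W] {β : W →ₗ[ℂ] W →ₗ[ℂ] ℂ} (hβ : PForm B β) {u z : W}
    (h : NP B u z) : Function.Surjective (phi h) := by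
  rw [← LinearMap.range_eq_top]
  have hpair : ∀ (c : W) (y : W), ∃ t : ℂ, B u z (B c y u) = t • u := by
    intro c y
    apply h.hU
    · rw [(h.nu z u z (B c y u)).1.2, h.hu]
    · rw [← (h.nu u z (B c y u) z).2.2.2.2.2, ← (h.nu c y u z).2.2.2.2.2, h.hu]
  have hval : ∀ (c : W) (y : PS B u z) (t : ℂ), B u z (B c (y : W) u) = t • u →
      t * β u z = β c (y : W) := by
    intro c y t ht
    have hy : B (y : W) u z = y := y.2
    have h1 := hβ.hl u z (B c (y : W) u) z
    rw [ht, h.hz, hβ.hr (y : W) u c z, hy, map_smul, LinearMap.smul_apply, smul_eq_mul] at h1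
    exact h1
  have hz0 : z ≠ 0 := h.swap.hu0
  have huz : β u z ≠ 0 := by
    intro h0
    apply hz0
    apply hβ.hnd
    intro c
    obtain ⟨t, ht⟩ := hpair c z
    have := hval c ⟨z, h.hz⟩ t ht
    rw [h0, mul_zero] at this
    rw [hβ.hs]
    exact this.symm
  apply submodule_top_of_rank_one
  intro f x
  obtain ⟨c, hc⟩ := dual_surj hβ _ f
  refine ⟨β u z • B (x : W) z (B u z c), ?_⟩
  ext y
  have hx : B (x : W) z u = x := x.2
  obtain ⟨t, ht⟩ := hpair c y
  have h2 := hval c y t ht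
  rw [phi_coe, map_smul, LinearMap.smul_apply, LinearMap.smul_apply,
    ← (h.nu (x : W) z (B u z c) (y : W)).2.2.2.2.2, ← (h.nu z c (y : W) u).1.2, ht,
    map_smul, hx, LinearMap.smulRight_apply, hc, ← h2, smul_smul, mul_comm]
  rfl

lemma phi_inj {u z : W} (h : NP B u z) (hs : IsSimpleTriple B) (w : W) (h1 : phi h w = 0)
    (h2 : phi h.swap w = 0) : w = 0 := by
  let I : Submodule ℂ W := LinearMap.ker (phi h) ⊓ LinearMap.ker (phi h.swap)
  have hI : IsTIdeal B I := by
    rintro x ⟨hx1, hx2⟩ y t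
    have hx1' : phi h x = 0 := hx1
    have hx2' : phi h.swap x = 0 := hx2
    refine ⟨⟨?_, ?_⟩, ⟨?_, ?_⟩, ⟨?_, ?_⟩⟩
    · change phi h _ = 0
      rw [phi_mul, hx1', LinearMap.zero_comp]
    · change phi h.swap _ = 0
      rw [phi_mul, hx2', LinearMap.zero_comp]
    · change phi h _ = 0
      rw [phi_mul, hx2', LinearMap.zero_comp, LinearMap.comp_zero]
    · change phi h.swap _ = 0
      rw [phi_mul h.swap, hx1', LinearMap.zero_comp, LinearMap.comp_zero]
    · change phi h _ = 0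
      rw [phi_mul, hx1', LinearMap.comp_zero, LinearMap.comp_zero]
    · change phi h.swap _ = 0
      rw [phi_mul, hx2', LinearMap.comp_zero, LinearMap.comp_zero]
  rcases hs.2 I hI with h0 | h0
  · have : w ∈ I := ⟨h1, h2⟩
    rw [h0] at this
    exact this
  · exfalso
    have : u ∈ I := by rw [h0]; trivial
    have h3 : phi h u = 0 := this.1
    have h4 := congrArg Subtype.val (LinearMap.congr_fun h3 ⟨z, h.hz⟩)
    rw [phi_coe] at h4
    apply h.hu0
    rw [← h.hu]
    exact h4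

/-- Every simple system satisfying the three identities is one of the two model systems. -/
theorem classification [FiniteDimensional ℂ W] (h1 : I1 B) (h2 : I2 B) (h3 : I3 B)
    (hs : IsSimpleTriple B) :
    (∃ n : ℕ, 1 ≤ n ∧ IsMat B n) ∨ (∃ p q : ℕ, 1 ≤ p ∧ p ≤ q ∧ IsRect B p q) := by
  obtain ⟨u, z, a1, a2, a3, a4, a5, a6, a7⟩ := exists_nuc_pair h1 h2 h3 hs
  have h : NP B u z := ⟨a1, a2, a3, a4, a5, a6, a7⟩
  have hβ := pform_tau h1 h2 h3 hs
  have sP := phi_surj hβ h
  have sM := phi_surj hβ h.swap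
  have hX : Nontrivial (PS B z u) :=
    ⟨⟨⟨u, h.hu⟩, 0, fun h0 => h.hu0 (congrArg Subtype.val h0)⟩⟩
  have hY : Nontrivial (PS B u z) :=
    ⟨⟨⟨z, h.hz⟩, 0, fun h0 => h.swap.hu0 (congrArg Subtype.val h0)⟩⟩
  have hP : ∀ a b c, phi h (B a b c) = phi h a ∘ₗ phi h.swap b ∘ₗ phi h c := phi_mul h
  have hM : ∀ a b c, phi h.swap (B a b c) = phi h.swap a ∘ₗ phi h b ∘ₗ phi h.swap c :=
    phi_mul h.swap
  have hpX : 1 ≤ finrank ℂ (PS B z u) := finrank_pos
  have hpY : 1 ≤ finrank ℂ (PS B u z) := finrank_pos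
  by_cases hk : (∃ w, w ≠ 0 ∧ phi h w = 0) ∨ (∃ w, w ≠ 0 ∧ phi h.swap w = 0)
  · right
    have hr : IsRect B (finrank ℂ (PS B z u)) (finrank ℂ (PS B u z)) := by
      rcases hk with ⟨w, hw, hw0⟩ | ⟨w, hw, hw0⟩
      · exact isRect_of_kernel (phi h) (phi h.swap) hP hM sP sM
          (fun w h1 h2 => phi_inj h hs w h1 h2) hw hw0
      · exact isRect_swap (isRect_of_kernel (phi h.swap) (phi h) hM hP sM sP
          (fun w h1 h2 => phi_inj h hs w h2 h1) hw hw0)
    rcases le_total (finrank ℂ (PS B z u)) (finrank ℂ (PS B u z)) with hle | hle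
    · exact ⟨_, _, hpX, hle, hr⟩
    · exact ⟨_, _, hpY, hle, isRect_swap hr⟩
  · left
    push Not at hk
    have iP : Function.Injective (phi h) := by
      rw [← LinearMap.ker_eq_bot, LinearMap.ker_eq_bot']
      intro m hm
      by_contra h0
      exact hk.1 m h0 hm
    have iM : Function.Injective (phi h.swap) := by
      rw [← LinearMap.ker_eq_bot, LinearMap.ker_eq_bot']
      intro m hm
      by_contra h0
      exact hk.2 m h0 hm
    exact ⟨_, hpX, isMat_of_injective (phi h) (phi h.swap) hP hM sP sM iP iM hX hY⟩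

end Pool.Agent.Triple97
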