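import Pool.Agent.Triple97.Nil

/-!
Existence of a rank one idempotent pair.
-/

set_option autoImplicit false

namespace Pool.Agent.Triple97

open Polynomial

variable {W : Type*} [AddCommGroup W] [Module ℂ W] {B : W →ₗ[ℂ] W →ₗ[ℂ] W →ₗ[ℂ] W}

/-- For a polynomial `q`, the operator of `q(T) x` in the middle slot `y`, `T = B x y`. -/
lemma lam_aeval (h3 : I3 B) (x y : W) (q : ℂ[X]) :
    B (aeval (R := ℂ) (A := Module.End ℂ W) (B x y) q x) y =
      (B x y : Module.End ℂ W) * aeval (R := ℂ) (A := Module.End ℂ W) (B x y) q := by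
  induction q using Polynomial.induction_on' with
  | add p q hp hq =>
    rw [map_add, LinearMap.add_apply, map_add, LinearMap.add_apply, hp, hq, mul_add]
  | monomial n c =>
    rw [← C_mul_X_pow_eq_monomial, map_mul, aeval_C, map_pow, aeval_X, Algebra.algebraMap_eq_smul_one,
      smul_mul_assoc, one_mul, LinearMap.smul_apply, map_smul, LinearMap.smul_apply,
      mul_smul_comm]
    congr 1
    induction n with
    | zero => simp
    | succ n ih =>
      rw [pow_succ', Module.End.mul_apply]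
      ext v
      rw [← h3 x y _ v]
      change B x y (B ((B x y ^ n : Module.End ℂ W) x) y v) = _
      rw [ih]
      simp [Module.End.mul_apply]

/-- a non nilpotent algebraic element has a suitable polynomial idempotent -/
lemma exists_poly_gen {A : Type*} [Ring A] [Algebra ℂ A] (T : A) (hint : IsIntegral ℂ T)
    (hT : ¬ IsNilpotent T) :
    ∃ q : ℂ[X], aeval T (X * q * q - q) = 0 ∧ aeval T (X * q) ≠ 0 := by
  obtain ⟨g, hg, hdvd⟩ := Polynomial.exists_eq_pow_rootMultiplicity_mul_and_not_dvd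
    (minpoly ℂ T) (minpoly.ne_zero hint) 0
  rw [C_0, sub_zero] at hg hdvd
  have hx : aeval T (X ^ (rootMultiplicity 0 (minpoly ℂ T)) * g) = 0 :=
    (congrArg (aeval T) hg).symm.trans (minpoly.aeval ℂ T)
  generalize rootMultiplicity 0 (minpoly ℂ T) = a at hx
  have hcop : IsCoprime ((X : ℂ[X]) ^ (a + 1)) g :=
    IsCoprime.pow_left ((Polynomial.irreducible_X.coprime_iff_not_dvd).mpr hdvd)
  obtain ⟨r, s, hrs⟩ := hcop
  refine ⟨r * X ^ a, ?_, ?_⟩
  · have e : X * (r * X ^ a) * (r * X ^ a) - r * X ^ a = - (r * s) * (X ^ a * g) := by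
      linear_combination (r * X ^ a) * hrs
    have e' := congrArg (aeval T) e
    rw [e', map_mul, hx, mul_zero]
  · intro h0
    apply hT
    refine ⟨a, ?_⟩
    have e1 : aeval T (r * X ^ (a + 1)) = 0 := by
      have : r * X ^ (a + 1) = X * (r * X ^ a) := by ring
      rw [congrArg (aeval T) this]
      exact h0
    have e2 : (X : ℂ[X]) ^ a = X ^ a * (r * X ^ (a + 1)) + s * (X ^ a * g) := by
      linear_combination (- X ^ a) * hrs
    have e3 : aeval T ((X : ℂ[X]) ^ a) = 0 := by
      have e2' := congrArg (aeval T) e2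
      rw [e2', map_add, map_mul, e1, map_mul, hx, mul_zero, mul_zero, add_zero]
    simpa using e3

/-- a non nilpotent endomorphism has a suitable polynomial idempotent -/
lemma exists_poly [FiniteDimensional ℂ W] (T : Module.End ℂ W) (hT : ¬ IsNilpotent T) :
    ∃ q : ℂ[X], aeval T (X * q * q - q) = 0 ∧ aeval T (X * q) ≠ 0 :=
  exists_poly_gen T (Algebra.IsIntegral.isIntegral T) hT

/-- Data of an idempotent attached to a non nilpotent operator `B x y`. -/
lemma exists_idem [FiniteDimensional ℂ W] (h3 : I3 B) (x y : W)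
    (hT : ¬ IsNilpotent (B x y : Module.End ℂ W)) :
    ∃ q : ℂ[X], let u := aeval (R := ℂ) (A := Module.End ℂ W) (B x y) q x
      u ≠ 0 ∧ B u y u = u ∧
        (B u y : Module.End ℂ W) = (B x y : Module.End ℂ W) *
          aeval (R := ℂ) (A := Module.End ℂ W) (B x y) q := by
  obtain ⟨q, hq1, hq2⟩ := exists_poly (B x y : Module.End ℂ W) hT
  refine ⟨q, ?_⟩
  intro u
  have hu : (B u y : Module.End ℂ W) = (B x y : Module.End ℂ W) *
          aeval (R := ℂ) (A := Module.End ℂ W) (B x y) q := lam_aeval h3 x y q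
  refine ⟨?_, ?_, hu⟩
  · intro h0
    apply hq2
    rw [map_mul, aeval_X, ← hu, h0]
    simp
  · rw [hu]
    have e : (aeval (R := ℂ) (A := Module.End ℂ W) (B x y) (X * q * q)) x =
        aeval (R := ℂ) (A := Module.End ℂ W) (B x y) q x := by
      have := congrArg (fun f : Module.End ℂ W => f x) hq1
      simp only [map_sub, LinearMap.sub_apply, LinearMap.zero_apply] at this
      exact sub_eq_zero.mp this
    rw [map_mul, map_mul, aeval_X] at e
    exact e

/-- idempotent pairs -/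
def IdPair (B : W →ₗ[ℂ] W →ₗ[ℂ] W →ₗ[ℂ] W) (u z : W) : Prop :=
  B u z u = u ∧ B z u z = z ∧ u ≠ 0

lemma idPair_of (h1 : I1 B) (h2 : I2 B) (h3 : I3 B) (u y : W) (hu : B u y u = u) (h0 : u ≠ 0) :
    IdPair B u (B y u y) ∧ B u (B y u y) = B u y ∧ rho B (B y u y) u = rho B y u := by
  refine ⟨⟨?_, ?_, h0⟩, ?_, ?_⟩
  · rw [h2 u y u y, hu, hu]
  · rw [← h3 y u y (B y u y), h1 y u u y, hu, h1 y u u y, hu]
  · ext v
    rw [← h1 u y y v, h3 u y u v, hu]
  · ext v
    rw [rho_apply, rho_apply, h2 v y u y, ← h3 v y u u, hu]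

/-- the trace form vanishes on nilpotent pairs -/
lemma tau_nilp [FiniteDimensional ℂ W] (h1 : I1 B) (h2 : I2 B) (h3 : I3 B) (x y : W)
    (hT : IsNilpotent (B x y : Module.End ℂ W)) : tau B x y = 0 := by
  obtain ⟨n, hn⟩ := hT
  set T : Module.End ℂ W := B x y with hTdef
  have a1 : ∀ k : ℕ, (rho B y x : Module.End ℂ W) ^ (k + 1) = rho B y ((T ^ k) x) := by
    intro k
    induction k with
    | zero => simp
    | succ k ih =>
      rw [pow_succ, ih]
      ext v
      rw [Module.End.mul_apply, rho_apply, rho_apply, rho_apply, pow_succ', Module.End.mul_apply,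
        hTdef, h3]
  have a2 : ∀ k : ℕ, (B y x : Module.End ℂ W) ^ (k + 1) = B y ((T ^ k) x) := by
    intro k
    induction k with
    | zero => simp
    | succ k ih =>
      rw [pow_succ', ih]
      ext v
      rw [Module.End.mul_apply, h1 y x _ v, pow_succ', Module.End.mul_apply]
  have a3 : ∀ k : ℕ, (rho B x y : Module.End ℂ W) ^ (k + 1) = rho B ((T ^ k) x) y := by
    intro k
    induction k with
    | zero => simp
    | succ k ih =>
      rw [pow_succ, ih]
      ext v
      rw [Module.End.mul_apply, rho_apply, rho_apply, rho_apply, pow_succ', Module.End.mul_apply,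
        hTdef, ← h2]
  have n1 : IsNilpotent (rho B y x : Module.End ℂ W) := ⟨n + 1, by
    rw [a1, hn]; ext v; simp⟩
  have n2 : IsNilpotent (B y x : Module.End ℂ W) := ⟨n + 1, by
    rw [a2, hn]; ext v; simp⟩
  have n3 : IsNilpotent (rho B x y : Module.End ℂ W) := ⟨n + 1, by
    rw [a3, hn]; ext v; simp⟩
  have n0 : IsNilpotent (B x y : Module.End ℂ W) := ⟨n, hn⟩
  have t0 := (LinearMap.isNilpotent_trace_of_isNilpotent n0).eq_zero
  have t1 := (LinearMap.isNilpotent_trace_of_isNilpotent n1).eq_zero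
  have t2 := (LinearMap.isNilpotent_trace_of_isNilpotent n2).eq_zero
  have t3 := (LinearMap.isNilpotent_trace_of_isNilpotent n3).eq_zero
  rw [tau_apply, tt, tt, Dop, Dop, map_add, map_add, t0, t1, t2, t3]
  simp

/-- the unital Peirce space of an idempotent pair -/
def Up (B : W →ₗ[ℂ] W →ₗ[ℂ] W →ₗ[ℂ] W) (u z : W) : Submodule ℂ W where
  carrier := {x | B u z x = x ∧ B x z u = x}
  add_mem' := by
    rintro a b ⟨ha, ha'⟩ ⟨hb, hb'⟩
    exact ⟨by rw [map_add, ha, hb], by rw [map_add, LinearMap.add_apply, LinearMap.add_apply, ha', hb']⟩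
  zero_mem' := by constructor <;> simp
  smul_mem' := by
    rintro c a ⟨ha, ha'⟩
    exact ⟨by rw [map_smul, ha], by rw [map_smul, LinearMap.smul_apply, LinearMap.smul_apply, ha']⟩

lemma mem_Up {u z x : W} : x ∈ Up B u z ↔ (B u z x = x ∧ B x z u = x) := Iff.rfl

lemma aeval_mem {P : Submodule ℂ W} {T : Module.End ℂ W} (hT : ∀ v ∈ P, T v ∈ P) (q : ℂ[X]) :
    ∀ v ∈ P, aeval T q v ∈ P := by
  induction q using Polynomial.induction_on' with
  | add p q hp hq =>
    intro v hv
    rw [map_add, LinearMap.add_apply]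
    exact P.add_mem (hp v hv) (hq v hv)
  | monomial n c =>
    intro v hv
    have hn : ∀ n : ℕ, (T ^ n) v ∈ P := by
      intro n
      induction n with
      | zero => simpa using hv
      | succ n ih =>
        rw [pow_succ', Module.End.mul_apply]
        exact hT _ ih
    rw [← C_mul_X_pow_eq_monomial, map_mul, aeval_C, map_pow, aeval_X,
      Algebra.algebraMap_eq_smul_one, smul_mul_assoc, one_mul, LinearMap.smul_apply]
    exact P.smul_mem _ (hn n)

lemma Up_mul (h3 : I3 B) {u z x v : W} (hx : x ∈ Up B u z) (hv : v ∈ Up B u z) :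
    B x z v ∈ Up B u z := by
  rw [mem_Up] at hx hv ⊢
  refine ⟨?_, ?_⟩
  · rw [h3 u z x v, hx.1]
  · rw [← h3 x z v u, hv.2]

lemma unit_mem (h1 : I1 B) (h2 : I2 B) {u z : W} (hp : IdPair B u z) (w : W) :
    B u w u ∈ Up B u z := by
  rw [mem_Up]
  refine ⟨?_, ?_⟩
  · rw [h1 u z w u, h2 u z u w, hp.1]
  · rw [← h2 u w u z, ← h1 u w z u, hp.1]

lemma min_idem [FiniteDimensional ℂ W] (h1 : I1 B) (h2 : I2 B) (h3 : I3 B) {u z : W}
    (hp : IdPair B u z)
    (hmin : ∀ u' z', IdPair B u' z' →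
      Module.finrank ℂ (Up B u z) ≤ Module.finrank ℂ (Up B u' z'))
    {v : W} (hv : v ∈ Up B u z) (hv0 : v ≠ 0) (hvv : B v z v = v) : v = u := by
  obtain ⟨hp', e1, e2⟩ := idPair_of h1 h2 h3 v z hvv hv0
  have hle : Up B v (B z v z) ≤ Up B u z := by
    intro x hx
    rw [mem_Up] at hx ⊢
    obtain ⟨hx1, hx2⟩ := hx
    rw [e1] at hx1
    have hx2' : B x z v = x := by
      have := congrArg (fun f => f x) e2
      simp only [rho_apply] at this
      rw [← this]; exact hx2
    refine ⟨?_, ?_⟩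
    · nth_rewrite 1 [← hx1]
      rw [h3 u z v x, hv.1, hx1]
    · nth_rewrite 1 [← hx2']
      rw [← h3 x z v u, hv.2, hx2']
  have heq := Submodule.eq_of_le_of_finrank_le hle (hmin v _ hp')
  have hu : u ∈ Up B u z := by
    rw [mem_Up]; exact ⟨hp.1, hp.1⟩
  rw [← heq, mem_Up, e1] at hu
  rw [← hu.1]
  exact hv.2.symm

lemma aeval_comm' (T : Module.End ℂ W) (q : ℂ[X]) (v : W) :
    T (aeval T q v) = aeval T q (T v) := by
  have h : aeval T (X * q) = aeval T (q * X) := by rw [mul_comm]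
  rw [map_mul, map_mul, aeval_X] at h
  exact congrArg (fun f : Module.End ℂ W => f v) h

lemma min_scalar [FiniteDimensional ℂ W] (h1 : I1 B) (h2 : I2 B) (h3 : I3 B)
    (hnd : ∀ x, (∀ y, tau B x y = 0) → x = 0) {u z : W} (hp : IdPair B u z)
    (hmin : ∀ u' z', IdPair B u' z' →
      Module.finrank ℂ (Up B u z) ≤ Module.finrank ℂ (Up B u' z'))
    {x : W} (hx : x ∈ Up B u z) : ∃ c : ℂ, x = c • u := by
  have hu : u ∈ Up B u z := by
    rw [mem_Up]; exact ⟨hp.1, hp.1⟩
  -- an eigenvector in the unital space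
  have hmaps : ∀ v ∈ Up B u z, (B x z) v ∈ Up B u z := fun v hv => Up_mul h3 hx hv
  have : Nontrivial (Up B u z) := ⟨⟨⟨u, hu⟩, 0, fun h => hp.2.2 (congrArg Subtype.val h)⟩⟩
  obtain ⟨c, hc⟩ := Module.End.exists_eigenvalue ((B x z).restrict hmaps)
  obtain ⟨v, hv⟩ := hc.exists_hasEigenvector
  have hv1 : B x z (v : W) = c • (v : W) := by
    have := congrArg Subtype.val hv.apply_eq_smul
    simpa using this
  have hv0 : (v : W) ≠ 0 := fun h => hv.2 (Subtype.ext h)
  refine ⟨c, ?_⟩
  rw [← sub_eq_zero]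
  set x' := x - c • u with hx'
  have hx'm : x' ∈ Up B u z := Submodule.sub_mem _ hx (Submodule.smul_mem _ _ hu)
  have hmaps' : ∀ v ∈ Up B u z, (B x' z) v ∈ Up B u z := fun v hv => Up_mul h3 hx'm hv
  have hx'v : B x' z (v : W) = 0 := by
    rw [hx', map_sub, LinearMap.sub_apply, LinearMap.sub_apply, map_smul, LinearMap.smul_apply,
      LinearMap.smul_apply, hv1, v.2.1, sub_self]
  have hnil : IsNilpotent (B x' z : Module.End ℂ W) := by
    by_contra hnn
    obtain ⟨q, hq0, hq1, hq2⟩ := exists_idem h3 x' z hnn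
    set w := aeval (R := ℂ) (A := Module.End ℂ W) (B x' z) q x' with hw
    have hwm : w ∈ Up B u z := aeval_mem hmaps' q x' hx'm
    have hwu : w = u := min_idem h1 h2 h3 hp hmin hwm hq0 hq1
    have e1 : B w z (v : W) = 0 := by
      have := congrArg (fun f : Module.End ℂ W => f (v : W)) hq2
      simp only [Module.End.mul_apply] at this
      rw [this, aeval_comm', hx'v, map_zero]
    rw [hwu, v.2.1] at e1
    exact hv0 e1
  obtain ⟨N, hN⟩ := hnil
  apply hnd
  intro w
  have hw2 := unit_mem h1 h2 hp w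
  set w2 := B u w u with hw2def
  have step1 : tau B x' w = tau B (B x' z w2) z := by
    have a1 : tau B x' w = tau B x' (B w u z) := by
      conv_lhs => rw [← hx'm.1]
      rw [tau_l h1 h2 h3]
    have a2 : tau B x' (B w u z) = tau B x' (B z u (B w u z)) := by
      conv_lhs => rw [← hx'm.2]
      rw [tau_r h1 h2 h3]
    have a3 : B z u (B w u z) = B z w2 z := by
      have := fskew h1 z u w u z
      rw [hp.2.1, hp.1] at this
      exact add_right_cancel this
    rw [a1, a2, a3, tau_r h1 h2 h3]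
  rw [step1]
  apply tau_nilp h1 h2 h3
  by_contra hnn
  have hnm : B x' z w2 ∈ Up B u z := Up_mul h3 hx'm hw2
  obtain ⟨q, hq0, hq1, hq2⟩ := exists_idem h3 (B x' z w2) z hnn
  set s := aeval (R := ℂ) (A := Module.End ℂ W) (B (B x' z w2) z) q (B x' z w2) with hs
  have hmapsn : ∀ v ∈ Up B u z, (B (B x' z w2) z) v ∈ Up B u z := fun v hv => Up_mul h3 hnm hv
  have hsm : s ∈ Up B u z := aeval_mem hmapsn q _ hnm
  have hsu : s = u := min_idem h1 h2 h3 hp hmin hsm hq0 hq1
  have surj : ∀ v ∈ Up B u z, ∃ v' ∈ Up B u z, v = B x' z v' := by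
    intro v hv
    refine ⟨B w2 z (aeval (R := ℂ) (A := Module.End ℂ W) (B (B x' z w2) z) q v), ?_, ?_⟩
    · exact Up_mul h3 hw2 (aeval_mem hmapsn q _ hv)
    · have := congrArg (fun f : Module.End ℂ W => f v) hq2
      simp only [Module.End.mul_apply] at this
      rw [h3, ← this, hsu, hv.1]
  have surjk : ∀ k : ℕ, ∀ v ∈ Up B u z, ∃ v' ∈ Up B u z,
      v = ((B x' z : Module.End ℂ W) ^ k) v' := by
    intro k
    induction k with
    | zero => intro v hv; exact ⟨v, hv, by simp⟩
    | succ k ih =>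
      intro v hv
      obtain ⟨v1, hv1, e1⟩ := ih v hv
      obtain ⟨v2, hv2, e2⟩ := surj v1 hv1
      refine ⟨v2, hv2, ?_⟩
      rw [e1, e2, pow_succ, Module.End.mul_apply]
  obtain ⟨v', _, e⟩ := surjk N u hu
  rw [hN] at e
  exact hp.2.2 (by simpa using e)

/-- Existence of a rank one idempotent pair. -/
theorem exists_rank_one [FiniteDimensional ℂ W] (h1 : I1 B) (h2 : I2 B) (h3 : I3 B)
    (hs : IsSimpleTriple B) : ∃ u z : W, IdPair B u z ∧
      (∀ x, B u z x = x → B x z u = x → ∃ c : ℂ, x = c • u) ∧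
      (∀ y, B z u y = y → B y u z = y → ∃ c : ℂ, y = c • z) := by
  classical
  have hnd : ∀ x, (∀ y, tau B x y = 0) → x = 0 := fun x hx => tau_nondeg h1 h2 h3 hs x hx
  have hex : ∃ n : ℕ, ∃ u z : W, IdPair B u z ∧ Module.finrank ℂ (Up B u z) = n := by
    by_contra hno
    push Not at hno
    apply tau_ne_zero h1 h2 h3 hs
    ext x y
    apply tau_nilp h1 h2 h3
    by_contra hnn
    obtain ⟨q, hq0, hq1, hq2⟩ := exists_idem h3 x y hnn
    obtain ⟨hp', e1, e2⟩ := idPair_of h1 h2 h3 _ y hq1 hq0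
    exact hno _ _ _ hp' rfl
  obtain ⟨u, z, hp, hn⟩ := Nat.find_spec hex
  have hmin : ∀ u' z', IdPair B u' z' →
      Module.finrank ℂ (Up B u z) ≤ Module.finrank ℂ (Up B u' z') := by
    intro u' z' hp'
    rw [hn]
    exact Nat.find_min' hex ⟨u', z', hp', rfl⟩
  refine ⟨u, z, hp, ?_, ?_⟩
  · intro x hx1 hx2
    exact min_scalar h1 h2 h3 hnd hp hmin ⟨hx1, hx2⟩
  · intro y hy1 hy2
    obtain ⟨c, hc⟩ := min_scalar h1 h2 h3 hnd hp hmin (unit_mem h1 h2 hp y)
    refine ⟨c, ?_⟩
    have a3 : B z u (B y u z) = B z (B u y u) z := by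
      have := fskew h1 z u y u z
      rw [hp.2.1, hp.1] at this
      exact add_right_cancel this
    rw [hy2, hy1, hc] at a3
    rw [a3, map_smul, LinearMap.smul_apply, hp.2.1]

end Pool.Agent.Triple97
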