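import Pool.Agent.Triple97.Cartan

/-!
A simple triple system satisfying (I1), (I2), (I3) has a nonzero, hence nondegenerate, trace form.
-/

set_option autoImplicit false

namespace Pool.Agent.Triple97

variable {W : Type*} [AddCommGroup W] [Module ℂ W]

/-- the span of the Jordan products -/
def Wp (B : W →ₗ[ℂ] W →ₗ[ℂ] W →ₗ[ℂ] W) : Submodule ℂ W :=
  Submodule.span ℂ {w : W | ∃ x y z, w = Dop B x y z}

lemma dop_mem (B : W →ₗ[ℂ] W →ₗ[ℂ] W →ₗ[ℂ] W) (x y z : W) : Dop B x y z ∈ Wp B :=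
  Submodule.subset_span ⟨x, y, z, rfl⟩

lemma wp_left {B : W →ₗ[ℂ] W →ₗ[ℂ] W →ₗ[ℂ] W} (h1 : I1 B) (h2 : I2 B) (h3 : I3 B) (x a w : W)
    (hw : w ∈ Wp B) : B x a w ∈ Wp B := by
  have hle : Wp B ≤ (Wp B).comap (B x a) := by
    refine Submodule.span_le.mpr ?_
    rintro _ ⟨u, v, w, rfl⟩
    change B x a (Dop B u v w) ∈ Wp B
    have e := struct1 h1 h2 h3 x a u v w
    have e' : B x a (Dop B u v w) = Dop B (B x a u) v w + Dop B u v (B x a w)
        - Dop B u (B v x a) w := e
    rw [e']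
    exact Submodule.sub_mem _ (Submodule.add_mem _ (dop_mem B _ _ _) (dop_mem B _ _ _))
      (dop_mem B _ _ _)
  exact hle hw

/-- modulo the Jordan products, `x a (x' a p)` vanishes -/
lemma wp_sq {B : W →ₗ[ℂ] W →ₗ[ℂ] W →ₗ[ℂ] W} (h3 : I3 B) (x x' a p : W) :
    B x a (B x' a p) ∈ Wp B := by
  -- (x a x') a p ≡ - p a (x a x') = -(p a x) a x' ≡ x' a (p a x) = (x' a p) a x ≡ - x a (x' a p)
  have e1 := h3 x a x' p
  have e2 := h3 p a x x'
  have e3 := h3 x' a p x
  have m1 := dop_mem B (B x a x') a p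
  have m2 := dop_mem B (B p a x) a x'
  have m3 := dop_mem B (B x' a p) a x
  have key : (2 : ℂ) • B x a (B x' a p) = Dop B (B x a x') a p - Dop B (B p a x) a x'
      + Dop B (B x' a p) a x := by
    simp only [Dop_apply]
    linear_combination (norm := module) e1 - e2 + e3
  have h2 : B x a (B x' a p) = (2 : ℂ)⁻¹ • ((2 : ℂ) • B x a (B x' a p)) := by
    rw [smul_smul]; norm_num
  rw [h2, key]
  exact Submodule.smul_mem _ _ (Submodule.add_mem _ (Submodule.sub_mem _ m1 m2) m3)

lemma wp_anti {B : W →ₗ[ℂ] W →ₗ[ℂ] W →ₗ[ℂ] W} (h3 : I3 B) (x x' a b p : W) :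
    B x a (B x' b p) + B x b (B x' a p) ∈ Wp B := by
  have e1 := wp_sq h3 x x' (a + b) p
  have e2 := wp_sq h3 x x' a p
  have e3 := wp_sq h3 x x' b p
  have h := Submodule.sub_mem _ (Submodule.sub_mem _ e1 e2) e3
  have e : B x (a + b) (B x' (a + b) p) - B x a (B x' a p) - B x b (B x' b p) =
      B x a (B x' b p) + B x b (B x' a p) := by
    simp only [map_add, LinearMap.add_apply]
    abel
  rwa [e] at h

/-- the span of the products `x a p` with `p` in `P` -/
def Mi (B : W →ₗ[ℂ] W →ₗ[ℂ] W →ₗ[ℂ] W) (a : W) (P : Submodule ℂ W) : Submodule ℂ W :=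
  Submodule.span ℂ {w : W | ∃ x, ∃ p ∈ P, w = B x a p}

lemma mi_mem (B : W →ₗ[ℂ] W →ₗ[ℂ] W →ₗ[ℂ] W) (a x p : W) (P : Submodule ℂ W) (hp : p ∈ P) :
    B x a p ∈ Mi B a P := Submodule.subset_span ⟨x, p, hp, rfl⟩

lemma nil_ind {B : W →ₗ[ℂ] W →ₗ[ℂ] W →ₗ[ℂ] W} (h1 : I1 B) (h2 : I2 B) (h3 : I3 B)
    {ι : Type*} [DecidableEq ι] (b : ι → W) (s : Finset ι) :
    ∀ P : Submodule ℂ W, P ≤ Wp B ⊔ ⨆ i ∈ s, Mi B (b i) P → P ≤ Wp B := by
  induction s using Finset.induction_on with
  | empty =>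
    intro P hP
    simpa using hP
  | insert j s hj ih =>
    intro P hP
    have hsup : Wp B ⊔ ⨆ i ∈ insert j s, Mi B (b i) P =
        Wp B ⊔ Mi B (b j) P ⊔ ⨆ i ∈ s, Mi B (b i) P := by
      rw [Finset.iSup_insert, sup_assoc]
    rw [hsup] at hP
    have hQ : Mi B (b j) P ≤ Wp B := by
      have : Wp B ⊔ Mi B (b j) P ≤ Wp B := by
        apply ih
        apply sup_le le_sup_left
        refine Submodule.span_le.mpr ?_
        rintro _ ⟨x, p, hp, rfl⟩
        set T := Wp B ⊔ ⨆ i ∈ s, Mi B (b i) (Wp B ⊔ Mi B (b j) P) with hT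
        change B x (b j) p ∈ T
        have hTP : P ≤ T.comap (B x (b j)) := by
          refine hP.trans ?_
          refine sup_le (sup_le ?_ ?_) ?_
          · intro w hw
            exact Submodule.mem_sup_left (wp_left h1 h2 h3 _ _ _ hw)
          · refine Submodule.span_le.mpr ?_
            rintro _ ⟨x', p', hp', rfl⟩
            exact Submodule.mem_sup_left (wp_sq h3 _ _ _ _)
          · refine iSup₂_le ?_
            intro i hi
            refine Submodule.span_le.mpr ?_
            rintro _ ⟨x', p', hp', rfl⟩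
            change B x (b j) (B x' (b i) p') ∈ T
            have e := wp_anti h3 x x' (b j) (b i) p'
            have e2 : B x (b i) (B x' (b j) p') ∈ T := by
              refine Submodule.mem_sup_right ?_
              refine Submodule.mem_iSup_of_mem i (Submodule.mem_iSup_of_mem hi ?_)
              exact mi_mem B _ _ _ _ (Submodule.mem_sup_right (mi_mem B _ _ _ _ hp'))
            have e3 : B x (b j) (B x' (b i) p') = (B x (b j) (B x' (b i) p') +
                B x (b i) (B x' (b j) p')) - B x (b i) (B x' (b j) p') := by abel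
            rw [e3]
            exact Submodule.sub_mem _ (Submodule.mem_sup_left e) e2
        exact hTP hp
      exact le_sup_right.trans this
    apply ih
    refine hP.trans ?_
    exact sup_le_sup_right (sup_le le_rfl hQ) _

/-- the span of all products is everything in a simple system -/
lemma span_top {B : W →ₗ[ℂ] W →ₗ[ℂ] W →ₗ[ℂ] W} (hs : IsSimpleTriple B) :
    Submodule.span ℂ {w : W | ∃ x y z, w = B x y z} = ⊤ := by
  have hid : IsTIdeal B (Submodule.span ℂ {w : W | ∃ x y z, w = B x y z}) := by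
    intro x _ y z
    exact ⟨Submodule.subset_span ⟨_, _, _, rfl⟩, Submodule.subset_span ⟨_, _, _, rfl⟩,
      Submodule.subset_span ⟨_, _, _, rfl⟩⟩
  rcases hs.2 _ hid with h | h
  · exfalso
    apply hs.1
    ext x y z
    have : B x y z ∈ (⊥ : Submodule ℂ W) := by
      rw [← h]; exact Submodule.subset_span ⟨_, _, _, rfl⟩
    simpa using this
  · exact h

/-- In a simple system the trace form does not vanish. -/
theorem tau_ne_zero [FiniteDimensional ℂ W] {B : W →ₗ[ℂ] W →ₗ[ℂ] W →ₗ[ℂ] W}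
    (h1 : I1 B) (h2 : I2 B) (h3 : I3 B) (hs : IsSimpleTriple B) : tau B ≠ 0 := by
  classical
  intro h0
  have hnt : Nontrivial W := by
    by_contra hn
    rw [not_nontrivial_iff_subsingleton] at hn
    apply hs.1
    ext x y z
    exact Subsingleton.elim _ _
  have hne := not_perfect (S := ⟨B, h1, h2, h3⟩) h0
  apply hne
  change Wp B = ⊤
  rw [eq_top_iff]
  let b := Module.finBasis ℂ W
  apply nil_ind h1 h2 h3 b Finset.univ
  rw [← span_top hs]
  refine Submodule.span_le.mpr ?_
  rintro _ ⟨x, y, z, rfl⟩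
  refine Submodule.mem_sup_right ?_
  have e : B x y z = ∑ i, b.repr y i • B x (b i) z := by
    have h0 : B x y z = B x (∑ i, b.repr y i • b i) z := by rw [b.sum_repr]
    rw [h0]
    simp only [map_sum, LinearMap.sum_apply, map_smul, LinearMap.smul_apply]
  change B x y z ∈ _
  rw [e]
  refine Submodule.sum_mem _ ?_
  intro i _
  refine Submodule.smul_mem _ _ ?_
  refine Submodule.mem_iSup_of_mem i (Submodule.mem_iSup_of_mem (Finset.mem_univ i) ?_)
  rw [span_top hs]
  exact mi_mem B _ _ _ _ trivial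

/-- In a simple system the trace form is nondegenerate. -/
theorem tau_nondeg [FiniteDimensional ℂ W] {B : W →ₗ[ℂ] W →ₗ[ℂ] W →ₗ[ℂ] W}
    (h1 : I1 B) (h2 : I2 B) (h3 : I3 B) (hs : IsSimpleTriple B) (x : W)
    (hx : ∀ y, tau B x y = 0) : x = 0 := by
  have hid : IsTIdeal B (LinearMap.ker (tau B)) := by
    intro w hw y z
    have hw' : ∀ v, tau B w v = 0 := fun v => by
      have := congrArg (fun g => g v) (LinearMap.mem_ker.mp hw)
      simpa using this
    refine ⟨?_, ?_, ?_⟩ <;> rw [LinearMap.mem_ker] <;> ext v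
    · rw [tau_r h1 h2 h3, hw']; rfl
    · rw [tau_m h1 h2 h3, hw']; rfl
    · rw [tau_l h1 h2 h3, hw']; rfl
  rcases hs.2 _ hid with h | h
  · have : x ∈ LinearMap.ker (tau B) := by
      rw [LinearMap.mem_ker]; ext v; rw [hx]; rfl
    rw [h] at this
    simpa using this
  · exfalso
    exact tau_ne_zero h1 h2 h3 hs (LinearMap.ker_eq_top.mp h)

end Pool.Agent.Triple97
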