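import Pool.Agent.Triple97.Peirce
import Pool.Agent.Triple97.Idem

/-!
Elements of the unital Peirce space of a rank one idempotent pair lie in the nucleus.
-/

set_option autoImplicit false
set_option linter.unusedVariables false

namespace Pool.Agent.Triple97

variable {W : Type*} [AddCommGroup W] [Module ℂ W] {B : W →ₗ[ℂ] W →ₗ[ℂ] W →ₗ[ℂ] W}

/-- full associativity of the product of five elements -/
def Assoc5 (B : W →ₗ[ℂ] W →ₗ[ℂ] W →ₗ[ℂ] W) (a b c d f : W) : Prop :=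
  B a b (B c d f) = B a (B b c d) f ∧ B a b (B c d f) = B (B a b c) d f

/-- `a` lies in the nucleus -/
def InNuc (B : W →ₗ[ℂ] W →ₗ[ℂ] W →ₗ[ℂ] W) (a : W) : Prop :=
  ∀ x y z w : W, Assoc5 B a x y z w ∧ Assoc5 B x a y z w ∧ Assoc5 B x y a z w ∧
    Assoc5 B x y z a w ∧ Assoc5 B x y z w a

section general

variable {e : W} {β : W →ₗ[ℂ] W →ₗ[ℂ] ℂ}

lemma n1 (hβ : PForm B β) (h1 : I1 B) (h2 : I2 B) (h3 : I3 B) (he : B e e e = e)
    (hUU : ∀ a b, Pe B e 1 1 a → Pe B e 1 1 b → ∀ x y w, B a b (B x y w) = B a (B b x y) w)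
    {a : W} (ha : Pe B e 1 1 a) (y z p q : W) : B a y (B z p q) = B a (B y z p) q := by
  revert q
  apply peirce_ind h1 h2 h3 he
  · intro q q' hq hq'
    simp only [map_add, hq, hq']
  intro lq rq q hlq hrq hq
  revert p
  apply peirce_ind h1 h2 h3 he
  · intro q q' hq hq'
    simp only [map_add, LinearMap.add_apply, hq, hq']
  intro lp rp p hlp hrp hp
  revert z
  apply peirce_ind h1 h2 h3 he
  · intro q q' hq hq'
    simp only [map_add, LinearMap.add_apply, hq, hq']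
  intro lz rz z hlz hrz hz
  revert y
  apply peirce_ind h1 h2 h3 he
  · intro q q' hq hq'
    simp only [map_add, LinearMap.add_apply, hq, hq']
  intro ly ry y hly hry hy
  have hzpq := prod_mem hβ h1 h2 h3 he hlz hrz hlp hrp hlq hrq hz hp hq
  have hyzp := prod_mem hβ h1 h2 h3 he hly hry hlz hrz hlp hrp hy hz hp
  rcases hly with rfl | rfl
  · rw [prod_zero hβ h1 h2 h3 he (Or.inr rfl) (Or.inr rfl) (Or.inl rfl) hry hlz hrq ha hy hzpq
      (fun h => one_ne_zero h.1),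
      prod_zero hβ h1 h2 h3 he (Or.inr rfl) (Or.inr rfl) (Or.inl rfl) hrp hlq hrq ha hyzp hq
      (fun h => one_ne_zero h.1)]
  rcases hry with rfl | rfl
  · have f := fskew h1 a y z p q
    have hapq := prod_mem hβ h1 h2 h3 he (Or.inr rfl) (Or.inr rfl) hlp hrp hlq hrq ha hp hq
    rw [prod_zero hβ h1 h2 h3 he hlz hrz (Or.inr rfl) (Or.inl rfl) (Or.inr rfl) hrq hz hy hapq
      (fun h => one_ne_zero h.2.symm),
      prod_zero hβ h1 h2 h3 he (Or.inr rfl) (Or.inl rfl) (Or.inr rfl) (Or.inr rfl) hlp hrp hy ha hp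
      (fun h => one_ne_zero h.1.symm)] at f
    simpa using f
  · exact hUU a y ha hy z p q

lemma n2 (hβ : PForm B β) (h1 : I1 B) (h2 : I2 B) (h3 : I3 B) (he : B e e e = e)
    (hUU : ∀ a b, Pe B e 1 1 a → Pe B e 1 1 b → ∀ x y w, B a b (B x y w) = B a (B b x y) w)
    {a : W} (ha : Pe B e 1 1 a) (x z p q : W) : B x a (B z p q) = B x (B a z p) q := by
  revert q
  apply peirce_ind h1 h2 h3 he
  · intro q q' hq hq'
    simp only [map_add, hq, hq']
  intro lq rq q hlq hrq hq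
  revert p
  apply peirce_ind h1 h2 h3 he
  · intro q q' hq hq'
    simp only [map_add, LinearMap.add_apply, hq, hq']
  intro lp rp p hlp hrp hp
  revert z
  apply peirce_ind h1 h2 h3 he
  · intro q q' hq hq'
    simp only [map_add, LinearMap.add_apply, hq, hq']
  intro lz rz z hlz hrz hz
  revert x
  apply peirce_ind h1 h2 h3 he
  · intro q q' hq hq'
    simp only [map_add, LinearMap.add_apply, hq, hq']
  intro lx rx x hlx hrx hx
  have hzpq := prod_mem hβ h1 h2 h3 he hlz hrz hlp hrp hlq hrq hz hp hq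
  have hazp := prod_mem hβ h1 h2 h3 he (Or.inr rfl) (Or.inr rfl) hlz hrz hlp hrp ha hz hp
  rcases hrx with rfl | rfl
  · rw [prod_zero hβ h1 h2 h3 he hlx (Or.inl rfl) (Or.inr rfl) (Or.inr rfl) hlz hrq hx ha hzpq
      (fun h => one_ne_zero h.1.symm),
      prod_zero hβ h1 h2 h3 he hlx (Or.inl rfl) (Or.inr rfl) hrp hlq hrq hx hazp hq
      (fun h => one_ne_zero h.1.symm)]
  rcases hlx with rfl | rfl
  · have f := fskew h1 x a z p q
    have hxpq := prod_mem hβ h1 h2 h3 he (Or.inl rfl) (Or.inr rfl) hlp hrp hlq hrq hx hp hq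
    rw [prod_zero hβ h1 h2 h3 he hlz hrz (Or.inr rfl) (Or.inr rfl) (Or.inl rfl) hrq hz ha hxpq
      (fun h => one_ne_zero h.2),
      prod_zero hβ h1 h2 h3 he (Or.inr rfl) (Or.inr rfl) (Or.inl rfl) (Or.inr rfl) hlp hrp ha hx hp
      (fun h => one_ne_zero h.1)] at f
    simpa using f
  · exact n1 hβ h1 h2 h3 he hUU hx a z p q

/-- the six linear form of the associator -/
def F6 (B : W →ₗ[ℂ] W →ₗ[ℂ] W →ₗ[ℂ] W) (β : W →ₗ[ℂ] W →ₗ[ℂ] ℂ) (a b c d f g : W) : Prop :=
  β (B c d f) (B g a b) = β (B b c d) (B f g a)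

lemma F6_rot (hβ : PForm B β) {a b c d f g : W} (h : F6 B β a b c d f g) :
    F6 B β d f g a b c := by
  unfold F6 at *
  rw [hβ.hs (B g a b), hβ.hs (B f g a), h]

lemma F6_of (hβ : PForm B β) {a b c d f : W} (h : B a b (B c d f) = B a (B b c d) f) (g : W) :
    F6 B β a b c d f g := by
  unfold F6
  rw [← hβ.hl, ← hβ.hm, h]

lemma of_F6 (hβ : PForm B β) {a b c d f : W} (h : ∀ g, F6 B β a b c d f g) :
    B a b (B c d f) = B a (B b c d) f := by
  rw [← sub_eq_zero]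
  apply hβ.hnd
  intro g
  have := h g
  unfold F6 at this
  rw [map_sub, LinearMap.sub_apply, hβ.hl a b (B c d f) g, hβ.hm a f (B b c d) g, this, sub_self]

lemma of_F6' (hβ : PForm B β) {a b c d f : W} (h : ∀ g, F6 B β b c d f g a) :
    B a b (B c d f) = B (B a b c) d f := by
  rw [← sub_eq_zero]
  apply hβ.hnd
  intro g
  have := h g
  unfold F6 at this
  rw [map_sub, LinearMap.sub_apply, hβ.hl a b (B c d f) g, hβ.hr d f (B a b c) g, ← this,
    hβ.hs (B d f g), sub_self]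

theorem inNuc_of (hβ : PForm B β) (h1 : I1 B) (h2 : I2 B) (h3 : I3 B) (he : B e e e = e)
    (hUU : ∀ a b, Pe B e 1 1 a → Pe B e 1 1 b → ∀ x y w, B a b (B x y w) = B a (B b x y) w)
    {a : W} (ha : Pe B e 1 1 a) : InNuc B a := by
  have f1 : ∀ x y z w v, F6 B β a x y z w v := fun x y z w v =>
    F6_of hβ (n1 hβ h1 h2 h3 he hUU ha x y z w) v
  have f2 : ∀ x y z w v, F6 B β x a y z w v := fun x y z w v =>
    F6_of hβ (n2 hβ h1 h2 h3 he hUU ha x y z w) v
  have f3 : ∀ x y z w v, F6 B β x y a z w v := fun x y z w v =>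
    F6_of hβ (by
      have f := fskew h1 x y a z w
      have g := n1 hβ h1 h2 h3 he hUU ha y x z w
      rw [g] at f
      exact add_right_cancel f) v
  have f4 : ∀ x y z w v, F6 B β x y z a w v := fun x y z w v => F6_rot hβ (f1 w v x y z)
  have f5 : ∀ x y z w v, F6 B β x y z w a v := fun x y z w v => F6_rot hβ (f2 w v x y z)
  have f6 : ∀ x y z w v, F6 B β x y z w v a := fun x y z w v => F6_rot hβ (f3 w v x y z)
  intro x y z w
  refine ⟨⟨?_, ?_⟩, ⟨?_, ?_⟩, ⟨?_, ?_⟩, ⟨?_, ?_⟩, ⟨?_, ?_⟩⟩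
  · exact of_F6 hβ (fun g => f1 _ _ _ _ _)
  · exact of_F6' hβ (fun g => f6 _ _ _ _ _)
  · exact of_F6 hβ (fun g => f2 _ _ _ _ _)
  · exact of_F6' hβ (fun g => f1 _ _ _ _ _)
  · exact of_F6 hβ (fun g => f3 _ _ _ _ _)
  · exact of_F6' hβ (fun g => f2 _ _ _ _ _)
  · exact of_F6 hβ (fun g => f4 _ _ _ _ _)
  · exact of_F6' hβ (fun g => f3 _ _ _ _ _)
  · exact of_F6 hβ (fun g => f5 _ _ _ _ _)
  · exact of_F6' hβ (fun g => f4 _ _ _ _ _)

end general

section polar

/-- the polarised system -/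
noncomputable def pol (B : W →ₗ[ℂ] W →ₗ[ℂ] W →ₗ[ℂ] W) :
    (W × W) →ₗ[ℂ] (W × W) →ₗ[ℂ] (W × W) →ₗ[ℂ] (W × W) :=
  LinearMap.mk₂ ℂ (fun p q => LinearMap.prodMap (B p.1 q.2) (B p.2 q.1))
    (fun p p' q => by ext r <;> simp) (fun c p q => by ext r <;> simp)
    (fun p q q' => by ext r <;> simp) (fun c p q => by ext r <;> simp)

@[simp] lemma pol_apply (p q r : W × W) :
    pol B p q r = (B p.1 q.2 r.1, B p.2 q.1 r.2) := rfl

/-- the polarised form -/
noncomputable def polf (β : W →ₗ[ℂ] W →ₗ[ℂ] ℂ) : (W × W) →ₗ[ℂ] (W × W) →ₗ[ℂ] ℂ :=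
  LinearMap.mk₂ ℂ (fun p q => β p.1 q.2 + β p.2 q.1)
    (fun p p' q => by simp; ring) (fun c p q => by simp; ring)
    (fun p q q' => by simp; ring) (fun c p q => by simp; ring)

@[simp] lemma polf_apply (β : W →ₗ[ℂ] W →ₗ[ℂ] ℂ) (p q : W × W) :
    polf β p q = β p.1 q.2 + β p.2 q.1 := rfl

lemma pol1 (h1 : I1 B) : I1 (pol B) := fun X Y V U => by
  simp only [pol_apply, h1 X.1 Y.2 V.2 U.1, h1 X.2 Y.1 V.1 U.2]
lemma pol2 (h2 : I2 B) : I2 (pol B) := fun X Y Z V => by
  simp only [pol_apply, h2 X.1 Y.2 Z.1 V.2, h2 X.2 Y.1 Z.2 V.1]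
lemma pol3 (h3 : I3 B) : I3 (pol B) := fun X Y Z V => by
  simp only [pol_apply, h3 X.1 Y.2 Z.1 V.1, h3 X.2 Y.1 Z.2 V.2]

lemma PForm.pol {β : W →ₗ[ℂ] W →ₗ[ℂ] ℂ} (h : PForm B β) :
    PForm (Triple97.pol B) (polf β) where
  hs x y := by
    simp only [polf_apply]; rw [h.hs x.1, h.hs x.2]; ring
  hl x y u v := by
    simp only [polf_apply, pol_apply]
    rw [h.hl, h.hl]
  hr x y u v := by
    simp only [polf_apply, pol_apply]
    rw [h.hr, h.hr]
  hm x y u v := by
    simp only [polf_apply, pol_apply]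
    rw [h.hm, h.hm]; ring
  hnd x hx := by
    apply Prod.ext
    · apply h.hnd
      intro y
      have := hx (0, y)
      simpa using this
    · apply h.hnd
      intro y
      have := hx (y, 0)
      simpa using this

lemma pform_tau [FiniteDimensional ℂ W] (h1 : I1 B) (h2 : I2 B) (h3 : I3 B)
    (hs : IsSimpleTriple B) : PForm B (tau B) where
  hs := tau_symm
  hl := tau_l h1 h2 h3
  hr := tau_r h1 h2 h3
  hm := tau_m h1 h2 h3
  hnd := tau_nondeg h1 h2 h3 hs

theorem nuc_pair {β : W →ₗ[ℂ] W →ₗ[ℂ] ℂ} (hβ : PForm B β) (h1 : I1 B) (h2 : I2 B) (h3 : I3 B)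
    {u z : W} (hu : B u z u = u) (hz : B z u z = z)
    (hU : ∀ x, B u z x = x → B x z u = x → ∃ c : ℂ, x = c • u)
    (hV : ∀ y, B z u y = y → B y u z = y → ∃ c : ℂ, y = c • z) :
    InNuc B u ∧ InNuc B z := by
  set e : W × W := (u, z) with he0
  have he : pol B e e e = e := by
    rw [pol_apply, he0]; simp only [hu, hz]
  have hUe : ∀ x, Pe (pol B) e 1 1 x → ∃ c d : ℂ, x = (c • u, d • z) := by
    rintro ⟨x1, x2⟩ ⟨hx1, hx2⟩
    rw [one_smul, pol_apply] at hx1 hx2
    simp only [he0, Prod.mk.injEq] at hx1 hx2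
    obtain ⟨c, hc⟩ := hU x1 hx1.1 hx2.1
    obtain ⟨d, hd⟩ := hV x2 hx1.2 hx2.2
    exact ⟨c, d, by rw [hc, hd]⟩
  have hkap : ∀ x y z w, Pe (pol B) e 1 1 x → Pe (pol B) e 1 1 y → Pe (pol B) e 1 1 z →
      Pe (pol B) e 1 1 w →
      polf β (pol B e x y) (pol B z w e) = polf β (pol B x y z) w := by
    intro x y t w hx hy ht hw
    obtain ⟨x1, x2, rfl⟩ := hUe x hx
    obtain ⟨y1, y2, rfl⟩ := hUe y hy
    obtain ⟨t1, t2, rfl⟩ := hUe t ht
    obtain ⟨w1, w2, rfl⟩ := hUe w hw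
    simp only [pol_apply, polf_apply, he0, map_smul, LinearMap.smul_apply, hu, hz, smul_eq_mul]
    rw [hβ.hs z u]
    ring
  have adj : ∀ x y w, pol B e e (pol B x y w) = pol B e (pol B e x y) w := by
    intro x y t
    rw [← sub_eq_zero]
    apply hβ.pol.hnd
    intro w
    rw [map_sub, LinearMap.sub_apply, hβ.pol.hl e e (pol B x y t) w,
      hβ.pol.hm e t (pol B e x y) w, sub_eq_zero, eq_comm]
    revert w
    apply peirce_ind (pol1 h1) (pol2 h2) (pol3 h3) he
    · intro q q' hq hq'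
      simp only [map_add, LinearMap.add_apply, hq, hq']
    intro lw rw' w hlw hrw hw
    revert t
    apply peirce_ind (pol1 h1) (pol2 h2) (pol3 h3) he
    · intro q q' hq hq'
      simp only [map_add, LinearMap.add_apply, hq, hq']
    intro lt rt t hlt hrt ht
    revert y
    apply peirce_ind (pol1 h1) (pol2 h2) (pol3 h3) he
    · intro q q' hq hq'
      simp only [map_add, LinearMap.add_apply, hq, hq']
    intro ly ry y hly hry hy
    revert x
    apply peirce_ind (pol1 h1) (pol2 h2) (pol3 h3) he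
    · intro q q' hq hq'
      simp only [map_add, LinearMap.add_apply, hq, hq']
    intro lx rx x hlx hrx hx
    rw [kap_eq hβ.pol (pol1 h1) (pol2 h2) (pol3 h3) he hkap hlx hrx hly hry hlt hrt hlw hrw
      hx hy ht hw, hw.2, map_smul, smul_eq_mul]
  have a1 : ∀ x y w, B u z (B x y w) = B u (B z x y) w := by
    intro x y w
    have := congrArg Prod.fst (adj (x, 0) (0, y) (w, 0))
    simpa [he0] using this
  have a2 : ∀ x y w, B z u (B x y w) = B z (B u x y) w := by
    intro x y w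
    have := congrArg Prod.snd (adj (0, x) (y, 0) (0, w))
    simpa [he0] using this
  have hUU : ∀ a b, Pe (pol B) e 1 1 a → Pe (pol B) e 1 1 b → ∀ x y w,
      pol B a b (pol B x y w) = pol B a (pol B b x y) w := by
    intro a b ha hb x y w
    obtain ⟨a1', a2', rfl⟩ := hUe a ha
    obtain ⟨b1', b2', rfl⟩ := hUe b hb
    simp only [pol_apply, map_smul, LinearMap.smul_apply, a1, a2]
  have key : ∀ a, Pe (pol B) e 1 1 a → InNuc (pol B) a := fun a ha =>
    inNuc_of hβ.pol (pol1 h1) (pol2 h2) (pol3 h3) he hUU ha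
  have hu1 : Pe (pol B) e 1 1 (u, 0) := by
    constructor <;> simp [he0, hu]
  have hz1 : Pe (pol B) e 1 1 (0, z) := by
    constructor <;> simp [he0, hz]
  have ku := key _ hu1
  have kz := key _ hz1
  constructor
  · intro x y t w
    refine ⟨⟨?_, ?_⟩, ⟨?_, ?_⟩, ⟨?_, ?_⟩, ⟨?_, ?_⟩, ⟨?_, ?_⟩⟩
    · have := congrArg Prod.fst (ku (0, x) (y, 0) (0, t) (w, 0)).1.1
      simpa using this
    · have := congrArg Prod.fst (ku (0, x) (y, 0) (0, t) (w, 0)).1.2
      simpa using this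
    · have := congrArg Prod.snd (ku (0, x) (0, y) (t, 0) (0, w)).2.1.1
      simpa using this
    · have := congrArg Prod.snd (ku (0, x) (0, y) (t, 0) (0, w)).2.1.2
      simpa using this
    · have := congrArg Prod.fst (ku (x, 0) (0, y) (0, t) (w, 0)).2.2.1.1
      simpa using this
    · have := congrArg Prod.fst (ku (x, 0) (0, y) (0, t) (w, 0)).2.2.1.2
      simpa using this
    · have := congrArg Prod.snd (ku (0, x) (y, 0) (0, t) (0, w)).2.2.2.1.1
      simpa using this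
    · have := congrArg Prod.snd (ku (0, x) (y, 0) (0, t) (0, w)).2.2.2.1.2
      simpa using this
    · have := congrArg Prod.fst (ku (x, 0) (0, y) (t, 0) (0, w)).2.2.2.2.1
      simpa using this
    · have := congrArg Prod.fst (ku (x, 0) (0, y) (t, 0) (0, w)).2.2.2.2.2
      simpa using this
  · intro x y t w
    refine ⟨⟨?_, ?_⟩, ⟨?_, ?_⟩, ⟨?_, ?_⟩, ⟨?_, ?_⟩, ⟨?_, ?_⟩⟩
    · have := congrArg Prod.snd (kz (x, 0) (0, y) (t, 0) (0, w)).1.1
      simpa using this
    · have := congrArg Prod.snd (kz (x, 0) (0, y) (t, 0) (0, w)).1.2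
      simpa using this
    · have := congrArg Prod.fst (kz (x, 0) (y, 0) (0, t) (w, 0)).2.1.1
      simpa using this
    · have := congrArg Prod.fst (kz (x, 0) (y, 0) (0, t) (w, 0)).2.1.2
      simpa using this
    · have := congrArg Prod.snd (kz (0, x) (y, 0) (t, 0) (0, w)).2.2.1.1
      simpa using this
    · have := congrArg Prod.snd (kz (0, x) (y, 0) (t, 0) (0, w)).2.2.1.2
      simpa using this
    · have := congrArg Prod.fst (kz (x, 0) (0, y) (t, 0) (w, 0)).2.2.2.1.1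
      simpa using this
    · have := congrArg Prod.fst (kz (x, 0) (0, y) (t, 0) (w, 0)).2.2.2.1.2
      simpa using this
    · have := congrArg Prod.snd (kz (0, x) (y, 0) (0, t) (w, 0)).2.2.2.2.1
      simpa using this
    · have := congrArg Prod.snd (kz (0, x) (y, 0) (0, t) (w, 0)).2.2.2.2.2
      simpa using this

/-- In a simple system there is a rank one idempotent pair lying in the nucleus. -/
theorem exists_nuc_pair [FiniteDimensional ℂ W] (h1 : I1 B) (h2 : I2 B) (h3 : I3 B)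
    (hs : IsSimpleTriple B) : ∃ u z : W, B u z u = u ∧ B z u z = z ∧ u ≠ 0 ∧
      (∀ x, B u z x = x → B x z u = x → ∃ c : ℂ, x = c • u) ∧
      (∀ y, B z u y = y → B y u z = y → ∃ c : ℂ, y = c • z) ∧
      InNuc B u ∧ InNuc B z := by
  obtain ⟨u, z, ⟨hp1, hp2, hp3⟩, hU, hV⟩ := exists_rank_one h1 h2 h3 hs
  obtain ⟨n1, n2⟩ := nuc_pair (pform_tau h1 h2 h3 hs) h1 h2 h3 hp1 hp2 hU hV
  exact ⟨u, z, hp1, hp2, hp3, hU, hV, n1, n2⟩

end polar

end Pool.Agent.Triple97
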