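import Pool.Agent.Triple97.Basic

/-!
Peirce decomposition for a tripotent, in presence of a nondegenerate invariant form.
-/

set_option autoImplicit false

namespace Pool.Agent.Triple97

variable {W : Type*} [AddCommGroup W] [Module ℂ W] {B : W →ₗ[ℂ] W →ₗ[ℂ] W →ₗ[ℂ] W}

/-- a nondegenerate invariant symmetric form -/
structure PForm (B : W →ₗ[ℂ] W →ₗ[ℂ] W →ₗ[ℂ] W) (β : W →ₗ[ℂ] W →ₗ[ℂ] ℂ) : Prop where
  hs : ∀ x y, β x y = β y x
  hl : ∀ x y u v, β (B x y u) v = β u (B v x y)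
  hr : ∀ x y u v, β (B u x y) v = β u (B x y v)
  hm : ∀ x y u v, β (B x u y) v = β u (B y v x)
  hnd : ∀ x, (∀ y, β x y = 0) → x = 0

/-- the opposite triple product -/
def op (B : W →ₗ[ℂ] W →ₗ[ℂ] W →ₗ[ℂ] W) : W →ₗ[ℂ] W →ₗ[ℂ] W →ₗ[ℂ] W :=
  LinearMap.mk₂ ℂ (fun x y => rho B y x)
    (fun x x' y => by ext z; simp) (fun c x y => by ext z; simp)
    (fun x y y' => by ext z; simp) (fun c x y => by ext z; simp)

@[simp] lemma op_apply (x y z : W) : op B x y z = B z y x := rfl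

lemma op1 (h2 : I2 B) : I1 (op B) := fun X Y V U => (h2 U V X Y).symm
lemma op2 (h1 : I1 B) : I2 (op B) := fun X Y Z V => (h1 Z V Y X).symm
lemma op3 (h3 : I3 B) : I3 (op B) := fun X Y Z V => (h3 V Y Z X).symm

lemma PForm.op {β : W →ₗ[ℂ] W →ₗ[ℂ] ℂ} (h : PForm B β) : PForm (Triple97.op B) β where
  hs := h.hs
  hl x y u v := h.hr y x u v
  hr x y u v := h.hl y x u v
  hm x y u v := h.hm y x u v
  hnd := h.hnd

/-- Peirce spaces -/
def Pe (B : W →ₗ[ℂ] W →ₗ[ℂ] W →ₗ[ℂ] W) (e : W) (l r : ℂ) (x : W) : Prop :=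
  B e e x = l • x ∧ B x e e = r • x

lemma Pe.op {e : W} {l r : ℂ} {x : W} (h : Pe B e l r x) : Pe (Triple97.op B) e r l x :=
  ⟨h.2, h.1⟩

section basic
variable {e : W}

lemma pLL (h1 : I1 B) (he : B e e e = e) (x : W) : B e e (B e e x) = B e e x := by
  rw [h1 e e e x, he]

lemma pRR (h2 : I2 B) (he : B e e e = e) (x : W) : B (B x e e) e e = B x e e := by
  rw [← h2 x e e e, he]

lemma pMR (h1 : I1 B) (he : B e e e = e) (x : W) : B e (B x e e) e = B e x e := by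
  rw [← h1 e x e e, he]

lemma pML (h2 : I2 B) (he : B e e e = e) (x : W) : B e (B e e x) e = B e x e := by
  rw [h2 e e e x, he]

lemma pLM (h1 : I1 B) (h2 : I2 B) (he : B e e e = e) (x : W) :
    B e e (B e x e) = B e x e := by
  rw [h1 e e x e, pML h2 he]

theorem peirce_ind (h1 : I1 B) (h2 : I2 B) (h3 : I3 B) (he : B e e e = e) (P : W → Prop)
    (hadd : ∀ x y, P x → P y → P (x + y))
    (h : ∀ (l r : ℂ) (x : W), (l = 0 ∨ l = 1) → (r = 0 ∨ r = 1) → Pe B e l r x → P x) :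
    ∀ x, P x := by
  intro x
  have hx : x = (B e e (B x e e) + (B e e x - B e e (B x e e))) +
      ((B x e e - B e e (B x e e)) + (x - B e e x - B x e e + B e e (B x e e))) := by abel
  have hc : B e e (B x e e) = B (B e e x) e e := h3 e e x e
  rw [hx]
  have a1 := pLL h1 he
  have a2 := pRR h2 he
  refine hadd _ _ (hadd _ _ ?_ ?_) (hadd _ _ ?_ ?_)
  · refine h 1 1 _ (Or.inr rfl) (Or.inr rfl) ⟨?_, ?_⟩
    · rw [one_smul, a1]
    · rw [one_smul, hc, a2]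
  · refine h 1 0 _ (Or.inr rfl) (Or.inl rfl) ⟨?_, ?_⟩
    · rw [one_smul, map_sub, a1, a1]
    · rw [zero_smul, map_sub, LinearMap.sub_apply, LinearMap.sub_apply, hc, a2, sub_self]
  · refine h 0 1 _ (Or.inl rfl) (Or.inr rfl) ⟨?_, ?_⟩
    · rw [zero_smul, map_sub, a1, sub_self]
    · rw [one_smul, map_sub, LinearMap.sub_apply, LinearMap.sub_apply, hc, a2, a2]
  · refine h 0 0 _ (Or.inl rfl) (Or.inl rfl) ⟨?_, ?_⟩
    · rw [zero_smul, map_add, map_sub, map_sub, a1, a1]; abel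
    · rw [zero_smul, map_add, map_sub, map_sub]
      simp only [LinearMap.add_apply, LinearMap.sub_apply]
      rw [hc, a2, a2]; abel

/-- (C1), case `x` in the (0,0) space -/
lemma c1_zero (h1 : I1 B) (h2 : I2 B) (h3 : I3 B) (he : B e e e = e) {x : W}
    (hx : Pe B e 0 0 x) (y : W) : B e x y = 0 := by
  obtain ⟨hl, hr⟩ := hx
  rw [zero_smul] at hl hr
  have hM : B e x e = 0 := by rw [← pMR h1 he, hr]; simp
  have p1 := hskew h3 e x e e y
  rw [hM, he] at p1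
  have e1 : B e x (B e e y) = 0 := by rw [h1 e x e y, hr]; simp
  have e2 : B e e (B e x y) = 0 := by rw [h1 e e x y, hl]; simp
  rw [e1, e2] at p1
  simpa using p1.symm

lemma c1_zero' (h1 : I1 B) (h2 : I2 B) (h3 : I3 B) (he : B e e e = e) {x : W}
    (hx : Pe B e 0 0 x) (y : W) : B y x e = 0 :=
  c1_zero (B := op B) (op1 h2) (op2 h1) (op3 h3) he hx.op y

/-- (C1): if `l(x) = 0` then `e x y = 0` -/
lemma c1 {β : W →ₗ[ℂ] W →ₗ[ℂ] ℂ} (hβ : PForm B β) (h1 : I1 B) (h2 : I2 B) (h3 : I3 B)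
    (he : B e e e = e) {x : W} {r : ℂ} (hr : r = 0 ∨ r = 1)
    (hx : Pe B e 0 r x) (y : W) : B e x y = 0 := by
  rcases hr with rfl | rfl
  · exact c1_zero h1 h2 h3 he hx y
  obtain ⟨hl, hr⟩ := hx
  rw [zero_smul] at hl
  rw [one_smul] at hr
  have part1 : ∀ y, B e x (B y e e) = 0 := by
    intro y
    have f1 := fskew h1 e x y e e
    rw [he, hr] at f1
    have f2 : B e x (B y e e) = B e (B x y e) e := add_right_cancel f1
    have f3 : B e e (B e x (B y e e)) = 0 := by rw [h1 e e x, hl]; simp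
    rw [f2, pLM h1 h2 he, ← f2] at f3
    exact f3
  have part2 : ∀ y, B y e e = 0 → B e x y = 0 := by
    intro y hy
    apply hβ.hnd
    intro w
    have hL : B e e (B e x y) = 0 := by rw [h1 e e x, hl]; simp
    have g1 : β (B e x y) (B w e e) = 0 := by
      rw [← hβ.hl, hL]; simp
    -- w' = w - R w
    have g2 : β (B e x y) (w - B w e e) = 0 := by
      rw [hβ.hm]
      have hw' : B (w - B w e e) e e = 0 := by
        rw [map_sub, LinearMap.sub_apply, LinearMap.sub_apply, pRR h2 he, sub_self]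
      set w' := w - B w e e with hw'def
      have k1 : B y (B e e w') e = 0 := by rw [h2 y e e w', hy]; simp
      have k2 : B y (w' - B e e w') e = 0 := by
        apply c1_zero' h1 h2 h3 he
        refine ⟨?_, ?_⟩
        · rw [zero_smul, map_sub, pLL h1 he, sub_self]
        · rw [zero_smul, map_sub, LinearMap.sub_apply, LinearMap.sub_apply, ← h3 e e w' e, hw']
          simp
      have k3 : B y w' e = 0 := by
        have : w' = B e e w' + (w' - B e e w') := by abel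
        rw [this, map_add, LinearMap.add_apply, k1, k2, add_zero]
      rw [k3]; simp
    have : w = B w e e + (w - B w e e) := by abel
    rw [this, map_add, g1, g2, add_zero]
  have hy : y = B y e e + (y - B y e e) := by abel
  rw [hy, map_add, part1, zero_add]
  apply part2
  rw [map_sub, LinearMap.sub_apply, LinearMap.sub_apply, pRR h2 he, sub_self]

/-- (C1'): if `r(x) = 0` then `y x e = 0` -/
lemma c1' {β : W →ₗ[ℂ] W →ₗ[ℂ] ℂ} (hβ : PForm B β) (h1 : I1 B) (h2 : I2 B) (h3 : I3 B)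
    (he : B e e e = e) {x : W} {l : ℂ} (hl : l = 0 ∨ l = 1)
    (hx : Pe B e l 0 x) (y : W) : B y x e = 0 :=
  c1 (B := op B) hβ.op (op1 h2) (op2 h1) (op3 h3) he hl hx.op y


lemma c2 (h1 : I1 B) {x y : W} {l r l' r' : ℂ} (hx : Pe B e l r x) (hy : Pe B e l' r' y)
    (hne : r ≠ l') : B e x y = 0 := by
  have h := h1 e x e y
  rw [hy.1, hx.2, map_smul, map_smul, LinearMap.smul_apply] at h
  have h' : (r - l') • B e x y = 0 := by rw [sub_smul, h, sub_self]
  rcases smul_eq_zero.mp h' with h0 | h0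
  · exact absurd (sub_eq_zero.mp h0) hne
  · exact h0

lemma c2' (h2 : I2 B) {x y : W} {l r l' r' : ℂ} (hx : Pe B e l r x) (hy : Pe B e l' r' y)
    (hne : l ≠ r') : B y x e = 0 :=
  c2 (B := op B) (op1 h2) hx.op hy.op hne

/-- (C4): `R (e x y) = r(y) e x y` -/
lemma c4 {β : W →ₗ[ℂ] W →ₗ[ℂ] ℂ} (hβ : PForm B β) (h1 : I1 B) (h2 : I2 B) (h3 : I3 B)
    (he : B e e e = e) {x y : W} {l r l' r' : ℂ} (hl : l = 0 ∨ l = 1) (hr : r = 0 ∨ r = 1)
    (hl' : l' = 0 ∨ l' = 1) (hr' : r' = 0 ∨ r' = 1)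
    (hx : Pe B e l r x) (hy : Pe B e l' r' y) :
    B (B e x y) e e = r' • B e x y := by
  rcases hl with rfl | rfl
  · rw [c1 hβ h1 h2 h3 he hr hx]; simp
  have hk := hskew h3 e x y e e
  rw [hy.1, hy.2, map_smul, map_smul, LinearMap.smul_apply, LinearMap.smul_apply] at hk
  rcases hr with rfl | rfl
  · rw [c1' hβ h1 h2 h3 he (Or.inr rfl) hx] at hk
    simpa using hk.symm
  rcases hl' with rfl | rfl
  · rw [c2 h1 hx hy one_ne_zero]; simp
  rcases hr' with rfl | rfl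
  · rw [c2' h2 hx hy one_ne_zero] at hk
    simpa using hk.symm
  obtain ⟨hx1, hx2⟩ := hx
  obtain ⟨hy1, hy2⟩ := hy
  rw [one_smul] at hx1 hx2 hy1 hy2 ⊢
  have e1 : B e x y = B (B e x e) e y := by
    have p := hskew h3 e x e e y
    rw [h1 e x e y, hx2, h1 e e x y, hx1, he] at p
    exact add_right_cancel p
  rw [e1, ← h3 (B e x e) e y e, hy2]

/-- (C4'): `L (y x e) = l(y) y x e` -/
lemma c4' {β : W →ₗ[ℂ] W →ₗ[ℂ] ℂ} (hβ : PForm B β) (h1 : I1 B) (h2 : I2 B) (h3 : I3 B)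
    (he : B e e e = e) {x y : W} {l r l' r' : ℂ} (hl : l = 0 ∨ l = 1) (hr : r = 0 ∨ r = 1)
    (hl' : l' = 0 ∨ l' = 1) (hr' : r' = 0 ∨ r' = 1)
    (hx : Pe B e l r x) (hy : Pe B e l' r' y) :
    B e e (B y x e) = l' • B y x e :=
  c4 (B := op B) hβ.op (op1 h2) (op2 h1) (op3 h3) he hr hl hr' hl' hx.op hy.op

lemma kap_ne {β : W →ₗ[ℂ] W →ₗ[ℂ] ℂ} (hβ : PForm B β) (h1 : I1 B) (h2 : I2 B) (h3 : I3 B)
    (he : B e e e = e) {x y z w : W} {lx rx ly ry lz rz lw rw' : ℂ}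
    (hlx : lx = 0 ∨ lx = 1) (hrx : rx = 0 ∨ rx = 1) (hly : ly = 0 ∨ ly = 1)
    (hry : ry = 0 ∨ ry = 1) (hlz : lz = 0 ∨ lz = 1) (hrz : rz = 0 ∨ rz = 1)
    (hlw : lw = 0 ∨ lw = 1) (hrw : rw' = 0 ∨ rw' = 1)
    (hx : Pe B e lx rx x) (hy : Pe B e ly ry y) (hz : Pe B e lz rz z) (hw : Pe B e lw rw' w)
    (hne : β (B e x y) (B z w e) ≠ 0) :
    lx = 1 ∧ rx = ly ∧ ry = lz ∧ rz = lw ∧ rw' = 1 := by
  have hxy : B e x y ≠ 0 := by intro h; apply hne; rw [h]; simp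
  have hzw : B z w e ≠ 0 := by intro h; apply hne; rw [h]; simp
  refine ⟨?_, ?_, ?_, ?_, ?_⟩
  · rcases hlx with rfl | rfl
    · exact absurd (c1 hβ h1 h2 h3 he hrx hx y) hxy
    · rfl
  · by_contra hc
    exact hxy (c2 h1 hx hy hc)
  · have a := c4 hβ h1 h2 h3 he hlx hrx hly hry hx hy
    have b := c4' hβ h1 h2 h3 he hlw hrw hlz hrz hw hz
    have c : β (B (B e x y) e e) (B z w e) = β (B e x y) (B e e (B z w e)) := hβ.hr _ _ _ _
    rw [a, b] at c
    simp only [map_smul, LinearMap.smul_apply, smul_eq_mul] at c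
    exact mul_right_cancel₀ hne c
  · by_contra hc
    exact hzw (c2' h2 hw hz (fun h => hc h.symm))
  · rcases hrw with rfl | rfl
    · exact absurd (c1' hβ h1 h2 h3 he hlw hw z) hzw
    · rfl

lemma psi_rot {β : W →ₗ[ℂ] W →ₗ[ℂ] ℂ} (hβ : PForm B β) (x y z w : W) :
    β (B x y z) w = β (B y z w) x := by
  rw [hβ.hr, hβ.hs]

lemma kap_rot {β : W →ₗ[ℂ] W →ₗ[ℂ] ℂ} (hβ : PForm B β) (h1 : I1 B)
    {x y z w : W} {lx rx ly ry lz rz lw rw' : ℂ}
    (hx : Pe B e lx rx x) (hy : Pe B e ly ry y) (hz : Pe B e lz rz z) (hw : Pe B e lw rw' w) :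
    β (B e x y) (B z w e) - β (B e y z) (B w x e) = (rw' - ly) * β (B x y z) w := by
  have f := congrArg (fun v => β v w) (fskew h1 e e x y z)
  simp only [map_add, LinearMap.add_apply] at f
  rw [hβ.hl e e (B x y z) w, hw.2, hβ.hl x e (B e y z) w, hβ.hm e z (B e x y) w, hy.1] at f
  simp only [map_smul, LinearMap.smul_apply, smul_eq_mul] at f
  linear_combination -f

lemma kap_two {β : W →ₗ[ℂ] W →ₗ[ℂ] ℂ} (hβ : PForm B β) (h2 : I2 B)
    {x y z w : W} {lx rx lz rz : ℂ} (hx : Pe B e lx rx x) (hz : Pe B e lz rz z) :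
    lx * β (B x y z) w + lz * β (B z y x) w =
      β (B e x y) (B z w e) + β (B e z y) (B x w e) := by
  have f := congrArg (fun v => β v w) (gskew h2 e e x y z)
  simp only [map_add, LinearMap.add_apply] at f
  rw [hx.1, hz.1, hβ.hm e z (B e x y) w, hβ.hm e x (B e z y) w] at f
  simp only [map_smul, LinearMap.smul_apply, smul_eq_mul] at f
  linear_combination f

lemma kap_three {β : W →ₗ[ℂ] W →ₗ[ℂ] ℂ} (hβ : PForm B β) (h1 : I1 B) (h2 : I2 B) (h3 : I3 B)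
    (he : B e e e = e)
    {x y z w : W} {ly lz rz lw rw' : ℂ} (hly : ly = 0 ∨ ly = 1)
    (hy : Pe B e ly 0 y) (hz : Pe B e lz rz z) (hw : Pe B e lw rw' w) :
    (rz - lw) * β (B x y z) w = 0 := by
  have f := congrArg (fun v => β v w) (hskew h3 x y z e e)
  simp only [map_add, LinearMap.add_apply] at f
  rw [hz.2, c1' hβ h1 h2 h3 he hly hy, c1' hβ h1 h2 h3 he hly hy,
    hβ.hr e e (B x y z) w] at f
  rw [hw.1] at f
  simp only [map_smul, LinearMap.smul_apply, smul_eq_mul, map_zero, LinearMap.zero_apply] at f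
  linear_combination f

/-- Peirce rules in terms of the form. -/
theorem psi_zero {β : W →ₗ[ℂ] W →ₗ[ℂ] ℂ} (hβ : PForm B β) (h1 : I1 B) (h2 : I2 B) (h3 : I3 B)
    (he : B e e e = e) {x y z w : W} {lx rx ly ry lz rz lw rw' : ℂ}
    (hlx : lx = 0 ∨ lx = 1) (hrx : rx = 0 ∨ rx = 1) (hly : ly = 0 ∨ ly = 1)
    (hry : ry = 0 ∨ ry = 1) (hlz : lz = 0 ∨ lz = 1) (hrz : rz = 0 ∨ rz = 1)
    (hlw : lw = 0 ∨ lw = 1) (hrw : rw' = 0 ∨ rw' = 1)
    (hx : Pe B e lx rx x) (hy : Pe B e ly ry y) (hz : Pe B e lz rz z) (hw : Pe B e lw rw' w)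
    (hnm : ¬ (rx = ly ∧ ry = lz ∧ rz = lw ∧ rw' = lx)) : β (B x y z) w = 0 := by
  by_contra hψ
  have r1 : β (B y z w) x = β (B x y z) w := (psi_rot hβ x y z w).symm
  have r2 : β (B z w x) y = β (B x y z) w := by rw [← r1, ← psi_rot hβ y z w x]
  have r3 : β (B w x y) z = β (B x y z) w := by rw [← r2, ← psi_rot hβ z w x y]
  have k1 : β (B e x y) (B z w e) = 0 := by
    by_contra hc
    obtain ⟨a1, a2, a3, a4, a5⟩ := kap_ne hβ h1 h2 h3 he hlx hrx hly hry hlz hrz hlw hrw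
      hx hy hz hw hc
    exact hnm ⟨a2, a3, a4, a5.trans a1.symm⟩
  have k2 : β (B e y z) (B w x e) = 0 := by
    by_contra hc
    obtain ⟨a1, a2, a3, a4, a5⟩ := kap_ne hβ h1 h2 h3 he hly hry hlz hrz hlw hrw hlx hrx
      hy hz hw hx hc
    exact hnm ⟨a5.trans a1.symm, a2, a3, a4⟩
  have k3 : β (B e z w) (B x y e) = 0 := by
    by_contra hc
    obtain ⟨a1, a2, a3, a4, a5⟩ := kap_ne hβ h1 h2 h3 he hlz hrz hlw hrw hlx hrx hly hry
      hz hw hx hy hc
    exact hnm ⟨a4, a5.trans a1.symm, a2, a3⟩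
  have k4 : β (B e w x) (B y z e) = 0 := by
    by_contra hc
    obtain ⟨a1, a2, a3, a4, a5⟩ := kap_ne hβ h1 h2 h3 he hlw hrw hlx hrx hly hry hlz hrz
      hw hx hy hz hc
    exact hnm ⟨a3, a4, a5.trans a1.symm, a2⟩
  have e1 : rw' = ly := by
    have h := kap_rot hβ h1 hx hy hz hw
    rw [k1, k2, sub_zero] at h
    rcases mul_eq_zero.mp h.symm with h0 | h0
    · exact sub_eq_zero.mp h0
    · exact absurd h0 hψ
  have e2 : rx = lz := by
    have h := kap_rot hβ h1 hy hz hw hx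
    rw [k2, k3, sub_zero, r1] at h
    rcases mul_eq_zero.mp h.symm with h0 | h0
    · exact sub_eq_zero.mp h0
    · exact absurd h0 hψ
  have e3 : ry = lw := by
    have h := kap_rot hβ h1 hz hw hx hy
    rw [k3, k4, sub_zero, r2] at h
    rcases mul_eq_zero.mp h.symm with h0 | h0
    · exact sub_eq_zero.mp h0
    · exact absurd h0 hψ
  have e4 : rz = lx := by
    have h := kap_rot hβ h1 hw hx hy hz
    rw [k4, k1, sub_zero, r3] at h
    rcases mul_eq_zero.mp h.symm with h0 | h0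
    · exact sub_eq_zero.mp h0
    · exact absurd h0 hψ
  subst e1 e2 e3 e4
  -- now rx = lz, ry = lw, rz = lx, rw' = ly
  have m1 : β (B e z y) (B x w e) = 0 := by
    by_contra hc
    obtain ⟨a1, a2, a3, a4, a5⟩ := kap_ne hβ h1 h2 h3 he hlz hrz hly hry hlx hrx hlw hrw
      hz hy hx hw hc
    apply hnm
    refine ⟨?_, ?_, ?_, ?_⟩ <;> simp_all
  have m2 : β (B e x w) (B z y e) = 0 := by
    by_contra hc
    obtain ⟨a1, a2, a3, a4, a5⟩ := kap_ne hβ h1 h2 h3 he hlx hrx hlw hrw hlz hrz hly hry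
      hx hw hz hy hc
    apply hnm
    refine ⟨?_, ?_, ?_, ?_⟩ <;> simp_all
  have m3 : β (B e w z) (B y x e) = 0 := by
    by_contra hc
    obtain ⟨a1, a2, a3, a4, a5⟩ := kap_ne hβ h1 h2 h3 he hlw hrw hlz hrz hly hry hlx hrx
      hw hz hy hx hc
    apply hnm
    refine ⟨?_, ?_, ?_, ?_⟩ <;> simp_all
  have m4 : β (B e y x) (B w z e) = 0 := by
    by_contra hc
    obtain ⟨a1, a2, a3, a4, a5⟩ := kap_ne hβ h1 h2 h3 he hly hry hlx hrx hlw hrw hlz hrz
      hy hx hw hz hc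
    apply hnm
    refine ⟨?_, ?_, ?_, ?_⟩ <;> simp_all
  have q1 := kap_two (y := y) (w := w) hβ h2 hx hz
  rw [k1, m1, add_zero] at q1
  have q2 := kap_two (y := w) (w := y) hβ h2 hz hx
  rw [k3, m2, add_zero, r2] at q2
  have q3 := kap_two (y := z) (w := x) hβ h2 hy hw
  rw [k2, m3, add_zero, r1] at q3
  have q4 := kap_two (y := x) (w := z) hβ h2 hw hy
  rw [k4, m4, add_zero, r3] at q4
  rcases hrz with rfl | rfl <;> rcases hrx with rfl | rfl
  · rcases hrw with rfl | rfl <;> rcases hry with rfl | rfl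
    · exact hnm ⟨rfl, rfl, rfl, rfl⟩
    · exact hψ (by simpa using q4)
    · exact hψ (by simpa using q3)
    · have := kap_three hβ h1 h2 h3 he (Or.inl rfl) hz hw hx (x := y)
      rw [r1] at this
      exact hψ (by simpa using this)
  · exact hψ (by simpa using q2)
  · exact hψ (by simpa using q1)
  · rcases hrw with rfl | rfl <;> rcases hry with rfl | rfl
    · have := kap_three hβ h1 h2 h3 he (Or.inl rfl) hy hz hw (x := x)
      exact hψ (by simpa using this)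
    · exact hψ (by simpa using q4)
    · exact hψ (by simpa using q3)
    · exact hnm ⟨rfl, rfl, rfl, rfl⟩

/-- product rule -/
theorem prod_zero {β : W →ₗ[ℂ] W →ₗ[ℂ] ℂ} (hβ : PForm B β) (h1 : I1 B) (h2 : I2 B) (h3 : I3 B)
    (he : B e e e = e) {x y z : W} {lx rx ly ry lz rz : ℂ}
    (hlx : lx = 0 ∨ lx = 1) (hrx : rx = 0 ∨ rx = 1) (hly : ly = 0 ∨ ly = 1)
    (hry : ry = 0 ∨ ry = 1) (hlz : lz = 0 ∨ lz = 1) (hrz : rz = 0 ∨ rz = 1)
    (hx : Pe B e lx rx x) (hy : Pe B e ly ry y) (hz : Pe B e lz rz z)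
    (hnm : ¬ (rx = ly ∧ ry = lz)) : B x y z = 0 := by
  apply hβ.hnd
  apply peirce_ind h1 h2 h3 he
  · intro a b ha hb
    rw [map_add, ha, hb, add_zero]
  · intro l r w hl hr hw
    exact psi_zero hβ h1 h2 h3 he hlx hrx hly hry hlz hrz hl hr hx hy hz hw
      (fun h => hnm ⟨h.1, h.2.1⟩)

/-- product rule, location of the product -/
theorem prod_mem {β : W →ₗ[ℂ] W →ₗ[ℂ] ℂ} (hβ : PForm B β) (h1 : I1 B) (h2 : I2 B) (h3 : I3 B)
    (he : B e e e = e) {x y z : W} {lx rx ly ry lz rz : ℂ}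
    (hlx : lx = 0 ∨ lx = 1) (hrx : rx = 0 ∨ rx = 1) (hly : ly = 0 ∨ ly = 1)
    (hry : ry = 0 ∨ ry = 1) (hlz : lz = 0 ∨ lz = 1) (hrz : rz = 0 ∨ rz = 1)
    (hx : Pe B e lx rx x) (hy : Pe B e ly ry y) (hz : Pe B e lz rz z) :
    Pe B e lx rz (B x y z) := by
  constructor
  · rw [← sub_eq_zero]
    apply hβ.hnd
    apply peirce_ind h1 h2 h3 he
    · intro a b ha hb
      rw [map_add, ha, hb, add_zero]
    · intro l r w hl hr hw
      rw [map_sub, LinearMap.sub_apply, hβ.hl, hw.2]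
      simp only [map_smul, LinearMap.smul_apply, smul_eq_mul]
      rw [← sub_mul]
      by_cases h : r = lx
      · rw [h, sub_self, zero_mul]
      · rw [psi_zero hβ h1 h2 h3 he hlx hrx hly hry hlz hrz hl hr hx hy hz hw
          (fun h' => h h'.2.2.2), mul_zero]
  · rw [← sub_eq_zero]
    apply hβ.hnd
    apply peirce_ind h1 h2 h3 he
    · intro a b ha hb
      rw [map_add, ha, hb, add_zero]
    · intro l r w hl hr hw
      rw [map_sub, LinearMap.sub_apply, hβ.hr, hw.1]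
      simp only [map_smul, LinearMap.smul_apply, smul_eq_mul]
      rw [← sub_mul]
      by_cases h : l = rz
      · rw [h, sub_self, zero_mul]
      · rw [psi_zero hβ h1 h2 h3 he hlx hrx hly hry hlz hrz hl hr hx hy hz hw
          (fun h' => h h'.2.2.1.symm), mul_zero]

/-- `kappa = r(w) psi` if it holds on the unital space -/
theorem kap_eq {β : W →ₗ[ℂ] W →ₗ[ℂ] ℂ} (hβ : PForm B β) (h1 : I1 B) (h2 : I2 B) (h3 : I3 B)
    (he : B e e e = e)
    (hU : ∀ x y z w, Pe B e 1 1 x → Pe B e 1 1 y → Pe B e 1 1 z → Pe B e 1 1 w →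
      β (B e x y) (B z w e) = β (B x y z) w)
    {x y z w : W} {lx rx ly ry lz rz lw rw' : ℂ}
    (hlx : lx = 0 ∨ lx = 1) (hrx : rx = 0 ∨ rx = 1) (hly : ly = 0 ∨ ly = 1)
    (hry : ry = 0 ∨ ry = 1) (hlz : lz = 0 ∨ lz = 1) (hrz : rz = 0 ∨ rz = 1)
    (hlw : lw = 0 ∨ lw = 1) (hrw : rw' = 0 ∨ rw' = 1)
    (hx : Pe B e lx rx x) (hy : Pe B e ly ry y) (hz : Pe B e lz rz z) (hw : Pe B e lw rw' w) :
    β (B e x y) (B z w e) = rw' * β (B x y z) w := by
  have r1 : β (B y z w) x = β (B x y z) w := (psi_rot hβ x y z w).symm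
  have r2 : β (B z w x) y = β (B x y z) w := by rw [← r1, ← psi_rot hβ y z w x]
  by_cases hm : rx = ly ∧ ry = lz ∧ rz = lw ∧ rw' = lx
  swap
  · rw [psi_zero hβ h1 h2 h3 he hlx hrx hly hry hlz hrz hlw hrw hx hy hz hw hm, mul_zero]
    by_contra hc
    obtain ⟨a1, a2, a3, a4, a5⟩ := kap_ne hβ h1 h2 h3 he hlx hrx hly hry hlz hrz hlw hrw
      hx hy hz hw hc
    exact hm ⟨a2, a3, a4, a5.trans a1.symm⟩
  obtain ⟨m1, m2, m3, m4⟩ := hm
  subst m1 m2 m3 m4
  rcases hrw with rfl | rfl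
  · rw [c1' hβ h1 h2 h3 he hlw hw]; simp
  have s1 := kap_rot hβ h1 hx hy hz hw
  rcases hrx with rfl | rfl
  · rw [c1 hβ h1 h2 h3 he hry hy] at s1
    linear_combination s1 + (by simp : (β 0) (B w x e) = (0 : ℂ))
  have s2 := kap_rot hβ h1 hy hz hw hx
  rw [r1] at s2
  rcases hry with rfl | rfl
  · rw [c1 hβ h1 h2 h3 he hrz hz] at s2
    linear_combination s1 + s2 + (by simp : (β 0) (B x y e) = (0 : ℂ))
  have s3 := kap_rot hβ h1 hz hw hx hy
  rw [r2] at s3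
  rcases hrz with rfl | rfl
  · rw [c1 hβ h1 h2 h3 he (Or.inr rfl) hw] at s3
    linear_combination s1 + s2 + s3 + (by simp : (β 0) (B y z e) = (0 : ℂ))
  rw [hU x y z w hx hy hz hw, one_mul]

end basic

end Pool.Agent.Triple97
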