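import Pool.Agent.Triple97.Basic

/-!
The Tits-Kantor-Koecher Lie algebra of the Jordan triple product `x y z + z y x`, used to show
that a triple system with vanishing trace form is not perfect.
-/

set_option autoImplicit false
set_option linter.unusedSimpArgs false

namespace Pool.Agent.Triple97

variable {W : Type*} [AddCommGroup W] [Module ℂ W] {B : W →ₗ[ℂ] W →ₗ[ℂ] W →ₗ[ℂ] W}

/-- derivation pairs of the Jordan triple product -/
def derPairs (B : W →ₗ[ℂ] W →ₗ[ℂ] W →ₗ[ℂ] W) : Submodule ℂ ((W →ₗ[ℂ] W) × (W →ₗ[ℂ] W)) where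
  carrier := {X | (∀ u v w, X.1 (Dop B u v w) =
      Dop B (X.1 u) v w + Dop B u (X.2 v) w + Dop B u v (X.1 w)) ∧
    (∀ u v w, X.2 (Dop B u v w) =
      Dop B (X.2 u) v w + Dop B u (X.1 v) w + Dop B u v (X.2 w))}
  add_mem' := by
    rintro X Y ⟨hX1, hX2⟩ ⟨hY1, hY2⟩
    refine ⟨fun u v w => ?_, fun u v w => ?_⟩
    · simp only [Prod.fst_add, Prod.snd_add, LinearMap.add_apply, hX1, hY1, Dop_add_left,
        Dop_add_right, map_add]
      module
    · simp only [Prod.fst_add, Prod.snd_add, LinearMap.add_apply, hX2, hY2, Dop_add_left,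
        Dop_add_right, map_add]
      module
  zero_mem' := by
    refine ⟨fun u v w => ?_, fun u v w => ?_⟩ <;> simp
  smul_mem' := by
    rintro c X ⟨hX1, hX2⟩
    refine ⟨fun u v w => ?_, fun u v w => ?_⟩
    · simp only [Prod.smul_fst, Prod.smul_snd, LinearMap.smul_apply, hX1, Dop_smul_left,
        Dop_smul_right, map_smul]
      module
    · simp only [Prod.smul_fst, Prod.smul_snd, LinearMap.smul_apply, hX2, Dop_smul_left,
        Dop_smul_right, map_smul]
      module

/-- The Jordan product is symmetric in the outer arguments. -/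
lemma Dop_comm (x y z : W) : Dop B x y z = Dop B z y x := by
  simp [add_comm]

/-- Jordan triple identity -/
theorem jordan_identity (h1 : I1 B) (h2 : I2 B) (h3 : I3 B) (x y u v w : W) :
    Dop B x y (Dop B u v w) = Dop B (Dop B x y u) v w - Dop B u (Dop B y x v) w
      + Dop B u v (Dop B x y w) := by
  have a := struct1 h1 h2 h3 x y u v w
  have b := struct2 h1 h2 h3 y x u v w
  simp only [Dop_apply, map_add, LinearMap.add_apply] at a b ⊢
  linear_combination (norm := module) a + b

/-- the pair `(D(x,y), -D(y,x))` -/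
def dp (h1 : I1 B) (h2 : I2 B) (h3 : I3 B) (x y : W) : derPairs B :=
  ⟨(Dop B x y, - Dop B y x), by
    refine ⟨fun u v w => ?_, fun u v w => ?_⟩
    · have := jordan_identity h1 h2 h3 x y u v w
      simp only [Dop_apply, map_add, LinearMap.add_apply, LinearMap.neg_apply, map_neg] at this ⊢
      linear_combination (norm := module) this
    · have := jordan_identity h1 h2 h3 y x u v w
      simp only [Dop_apply, map_add, LinearMap.add_apply, LinearMap.neg_apply, map_neg] at this ⊢
      linear_combination (norm := module) - this⟩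

/-- commutator of derivation pairs -/
def cm (X Y : derPairs B) : derPairs B :=
  ⟨(X.1.1 ∘ₗ Y.1.1 - Y.1.1 ∘ₗ X.1.1, X.1.2 ∘ₗ Y.1.2 - Y.1.2 ∘ₗ X.1.2), by
    obtain ⟨X, hX1, hX2⟩ := X
    obtain ⟨Y, hY1, hY2⟩ := Y
    refine ⟨fun u v w => ?_, fun u v w => ?_⟩
    · simp only [LinearMap.sub_apply, LinearMap.comp_apply, hX1, hY1, map_add]
      simp only [Dop_apply, map_sub, LinearMap.sub_apply]
      module
    · simp only [LinearMap.sub_apply, LinearMap.comp_apply, hX2, hY2, map_add]
      simp only [Dop_apply, map_sub, LinearMap.sub_apply]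
      module⟩

/-- a bundled triple system satisfying the three identities -/
structure Sys (W : Type*) [AddCommGroup W] [Module ℂ W] where
  /-- the product -/
  B : W →ₗ[ℂ] W →ₗ[ℂ] W →ₗ[ℂ] W
  i1 : I1 B
  i2 : I2 B
  i3 : I3 B

/-- the space of the Lie algebra -/
def TKK (S : Sys W) : Type _ := W × derPairs S.B × W

instance (S : Sys W) : AddCommGroup (TKK S) := inferInstanceAs (AddCommGroup (W × derPairs S.B × W))
instance (S : Sys W) : Module ℂ (TKK S) := inferInstanceAs (Module ℂ (W × derPairs S.B × W))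

/-- the pair `(D(x,y), -D(y,x))` -/
def dq (S : Sys W) (x y : W) : derPairs S.B := dp S.i1 S.i2 S.i3 x y

instance (S : Sys W) : Bracket (TKK S) (TKK S) where
  bracket p q := (p.2.1.1.1 q.1 - q.2.1.1.1 p.1,
    cm p.2.1 q.2.1 + dq S p.1 q.2.2 - dq S q.1 p.2.2,
    p.2.1.1.2 q.2.2 - q.2.1.1.2 p.2.2)

variable {S : Sys W}

lemma br_def (p q : TKK S) : ⁅p, q⁆ = (p.2.1.1.1 q.1 - q.2.1.1.1 p.1,
    cm p.2.1 q.2.1 + dq S p.1 q.2.2 - dq S q.1 p.2.2,
    p.2.1.1.2 q.2.2 - q.2.1.1.2 p.2.2) := rfl

lemma dq_one (x y : W) : (dq S x y).1.1 = Dop S.B x y := rfl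
lemma dq_two (x y : W) : (dq S x y).1.2 = - Dop S.B y x := rfl
lemma cm_one (X Y : derPairs S.B) : (cm X Y).1.1 = X.1.1 ∘ₗ Y.1.1 - Y.1.1 ∘ₗ X.1.1 := rfl
lemma cm_two (X Y : derPairs S.B) : (cm X Y).1.2 = X.1.2 ∘ₗ Y.1.2 - Y.1.2 ∘ₗ X.1.2 := rfl

lemma TKK.ext {p q : TKK S} (h1 : p.1 = q.1) (h2 : ∀ w, p.2.1.1.1 w = q.2.1.1.1 w)
    (h3 : ∀ w, p.2.1.1.2 w = q.2.1.1.2 w) (h4 : p.2.2 = q.2.2) : p = q := by
  apply Prod.ext h1
  apply Prod.ext
  · apply Subtype.ext
    apply Prod.ext
    · exact LinearMap.ext h2
    · exact LinearMap.ext h3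
  · exact h4

lemma add_one (p q : TKK S) : (p + q).1 = p.1 + q.1 := rfl
lemma add_two (p q : TKK S) : (p + q).2.1.1.1 = p.2.1.1.1 + q.2.1.1.1 := rfl
lemma add_three (p q : TKK S) : (p + q).2.1.1.2 = p.2.1.1.2 + q.2.1.1.2 := rfl
lemma add_four (p q : TKK S) : (p + q).2.2 = p.2.2 + q.2.2 := rfl
lemma smul_one' (c : ℂ) (p : TKK S) : (c • p).1 = c • p.1 := rfl
lemma smul_two' (c : ℂ) (p : TKK S) : (c • p).2.1.1.1 = c • p.2.1.1.1 := rfl
lemma smul_three' (c : ℂ) (p : TKK S) : (c • p).2.1.1.2 = c • p.2.1.1.2 := rfl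
lemma smul_four' (c : ℂ) (p : TKK S) : (c • p).2.2 = c • p.2.2 := rfl

lemma br_one (p q : TKK S) : ⁅p, q⁆.1 = p.2.1.1.1 q.1 - q.2.1.1.1 p.1 := rfl
lemma br_two (p q : TKK S) : ⁅p, q⁆.2.1.1.1 = p.2.1.1.1 ∘ₗ q.2.1.1.1 - q.2.1.1.1 ∘ₗ p.2.1.1.1
    + Dop S.B p.1 q.2.2 - Dop S.B q.1 p.2.2 := rfl
lemma br_three (p q : TKK S) : ⁅p, q⁆.2.1.1.2 = p.2.1.1.2 ∘ₗ q.2.1.1.2 - q.2.1.1.2 ∘ₗ p.2.1.1.2
    + (- Dop S.B q.2.2 p.1) - (- Dop S.B p.2.2 q.1) := rfl
lemma br_four (p q : TKK S) : ⁅p, q⁆.2.2 = p.2.1.1.2 q.2.2 - q.2.1.1.2 p.2.2 := rfl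

lemma der_one (X : derPairs S.B) (u v w : W) : X.1.1 (Dop S.B u v w) =
      Dop S.B (X.1.1 u) v w + Dop S.B u (X.1.2 v) w + Dop S.B u v (X.1.1 w) := X.2.1 u v w
lemma der_two (X : derPairs S.B) (u v w : W) : X.1.2 (Dop S.B u v w) =
      Dop S.B (X.1.2 u) v w + Dop S.B u (X.1.1 v) w + Dop S.B u v (X.1.2 w) := X.2.2 u v w

set_option maxHeartbeats 2000000 in
instance (S : Sys W) : LieRing (TKK S) where
  add_lie p q r := by
    apply TKK.ext
    · simp only [br_one, add_one, add_two, LinearMap.add_apply, map_add]; module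
    · intro w
      simp only [br_two, add_one, add_two, add_four, LinearMap.add_apply, map_add,
        LinearMap.sub_apply, LinearMap.comp_apply, Dop_apply]; module
    · intro w
      simp only [br_three, add_one, add_three, add_four, LinearMap.add_apply, map_add,
        LinearMap.sub_apply, LinearMap.comp_apply, LinearMap.neg_apply, Dop_apply]; module
    · simp only [br_four, add_three, add_four, LinearMap.add_apply, map_add]; module
  lie_add p q r := by
    apply TKK.ext
    · simp only [br_one, add_one, add_two, LinearMap.add_apply, map_add]; module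
    · intro w
      simp only [br_two, add_one, add_two, add_four, LinearMap.add_apply, map_add,
        LinearMap.sub_apply, LinearMap.comp_apply, Dop_apply]; module
    · intro w
      simp only [br_three, add_one, add_three, add_four, LinearMap.add_apply, map_add,
        LinearMap.sub_apply, LinearMap.comp_apply, LinearMap.neg_apply, Dop_apply]; module
    · simp only [br_four, add_three, add_four, LinearMap.add_apply, map_add]; module
  lie_self p := by
    apply TKK.ext
    · simp only [br_one, sub_self]; rfl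
    · intro w
      simp only [br_two, LinearMap.add_apply, LinearMap.sub_apply, LinearMap.comp_apply]
      change _ = (0 : W)
      module
    · intro w
      simp only [br_three, LinearMap.add_apply, LinearMap.sub_apply, LinearMap.comp_apply,
        LinearMap.neg_apply]
      change _ = (0 : W)
      module
    · simp only [br_four, sub_self]; rfl
  leibniz_lie p q r := by
    apply TKK.ext
    · simp only [br_one, br_two, br_four, add_one, LinearMap.add_apply, map_add, map_sub,
        LinearMap.sub_apply, LinearMap.comp_apply, Dop_apply]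
      module
    · intro w
      have e1 := der_one p.2.1
      have e2 := der_one q.2.1
      have e3 := der_one r.2.1
      simp only [br_one, br_two, br_four, add_two, LinearMap.add_apply, map_add, map_sub,
        LinearMap.sub_apply, LinearMap.comp_apply, e1, e2, e3]
      simp only [Dop_apply, map_sub, LinearMap.sub_apply]
      module
    · intro w
      have e1 := der_two p.2.1
      have e2 := der_two q.2.1
      have e3 := der_two r.2.1
      simp only [br_one, br_three, br_four, add_three, LinearMap.add_apply, map_add, map_sub,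
        LinearMap.sub_apply, LinearMap.comp_apply, LinearMap.neg_apply, map_neg, e1, e2, e3]
      simp only [Dop_apply, map_sub, LinearMap.sub_apply]
      module
    · simp only [br_one, br_three, br_four, add_four, LinearMap.add_apply, map_add, map_sub,
        LinearMap.sub_apply, LinearMap.comp_apply, LinearMap.neg_apply, Dop_apply]
      module

instance (S : Sys W) : LieAlgebra ℂ (TKK S) where
  lie_smul c p q := by
    apply TKK.ext
    · simp only [br_one, smul_one', smul_two', LinearMap.smul_apply, map_smul]; module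
    · intro w
      simp only [br_two, smul_one', smul_two', smul_four', LinearMap.smul_apply, map_smul,
        LinearMap.add_apply, LinearMap.sub_apply, LinearMap.comp_apply, Dop_apply]; module
    · intro w
      simp only [br_three, smul_one', smul_three', smul_four', LinearMap.smul_apply, map_smul,
        LinearMap.add_apply, LinearMap.sub_apply, LinearMap.comp_apply, LinearMap.neg_apply,
        Dop_apply]; module
    · simp only [br_four, smul_three', smul_four', LinearMap.smul_apply, map_smul]; module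

end Pool.Agent.Triple97
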